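import Mathlib

set_option autoImplicit false

/-! From weighted averages of bounded continuous functions to distribution functions. -/

namespace Pool.Agent.R313

open MeasureTheory Filter Topology ProbabilityTheory

/-- the ramp which is `1` up to `a` and `0` from `b` on -/
noncomputable def ramp (a b : ℝ) : BoundedContinuousFunction ℝ ℝ :=
  BoundedContinuousFunction.ofNormedAddCommGroup
    (fun z => min 1 (max 0 ((b - z) / (b - a)))) (by fun_prop) 1 (fun z => by
      rw [Real.norm_of_nonneg (le_min zero_le_one (le_max_left _ _))]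
      exact min_le_left _ _)

lemma ramp_apply (a b z : ℝ) : ramp a b z = min 1 (max 0 ((b - z) / (b - a))) := rfl

lemma ramp_nonneg (a b z : ℝ) : 0 ≤ ramp a b z := by
  rw [ramp_apply]; exact le_min zero_le_one (le_max_left _ _)

lemma ramp_le_one (a b z : ℝ) : ramp a b z ≤ 1 := by
  rw [ramp_apply]; exact min_le_left _ _

lemma ramp_one {a b z : ℝ} (hab : a < b) (hz : z ≤ a) : ramp a b z = 1 := by
  rw [ramp_apply]
  have h : 1 ≤ (b - z) / (b - a) := by rw [le_div_iff₀ (by linarith)]; linarith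
  exact min_eq_left (h.trans (le_max_right _ _))

lemma ramp_zero {a b z : ℝ} (hab : a < b) (hz : b ≤ z) : ramp a b z = 0 := by
  rw [ramp_apply]
  have h : (b - z) / (b - a) ≤ 0 := div_nonpos_of_nonpos_of_nonneg (by linarith) (by linarith)
  rw [max_eq_left h]
  exact min_eq_right zero_le_one

lemma ramp_up (γ : Measure ℝ) [IsProbabilityMeasure γ] {a b : ℝ} (hab : a < b) :
    ∫ x, ramp a b x ∂γ ≤ γ.real (Set.Iic b) := by
  have h1 : ∫ x, ramp a b x ∂γ ≤ ∫ x, (Set.Iic b).indicator (fun _ => (1 : ℝ)) x ∂γ := by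
    refine integral_mono ((ramp a b).integrable γ) ((integrable_const _).indicator measurableSet_Iic)
      (fun x => ?_)
    by_cases hx : x ∈ Set.Iic b
    · rw [Set.indicator_of_mem hx]; exact ramp_le_one a b x
    · rw [Set.indicator_of_notMem hx]
      exact (ramp_zero hab (by simpa using (not_le.mp hx).le)).le
  rwa [integral_indicator measurableSet_Iic, setIntegral_const, smul_eq_mul, mul_one] at h1

lemma ramp_low (γ : Measure ℝ) [IsProbabilityMeasure γ] {a b : ℝ} (hab : a < b) :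
    γ.real (Set.Iic a) ≤ ∫ x, ramp a b x ∂γ := by
  have h1 : ∫ x, (Set.Iic a).indicator (fun _ => (1 : ℝ)) x ∂γ ≤ ∫ x, ramp a b x ∂γ := by
    refine integral_mono ((integrable_const _).indicator measurableSet_Iic) ((ramp a b).integrable γ)
      (fun x => ?_)
    by_cases hx : x ∈ Set.Iic a
    · rw [Set.indicator_of_mem hx, ramp_one hab hx]
    · rw [Set.indicator_of_notMem hx]
      exact ramp_nonneg a b x
  rwa [integral_indicator measurableSet_Iic, setIntegral_const, smul_eq_mul, mul_one] at h1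

lemma cdf_right (γ : Measure ℝ) [IsProbabilityMeasure γ] (y ε : ℝ) (hε : 0 < ε) :
    ∃ δ : ℝ, 0 < δ ∧ γ.real (Set.Iic (y + δ)) ≤ γ.real (Set.Iic y) + ε := by
  have h := (cdf γ).right_continuous y
  have h1 : Tendsto (fun z => cdf γ z) (𝓝[>] y) (𝓝 (cdf γ y)) :=
    h.tendsto.mono_left (nhdsWithin_mono _ Set.Ioi_subset_Ici_self)
  have h2 := h1.eventually (ge_mem_nhds (show cdf γ y < cdf γ y + ε by linarith))
  obtain ⟨z, hz, hzy⟩ := (h2.and self_mem_nhdsWithin).exists
  refine ⟨z - y, sub_pos.2 hzy, ?_⟩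
  rw [← cdf_eq_real, ← cdf_eq_real, show y + (z - y) = z by ring]
  exact hz

lemma cdf_left (γ : Measure ℝ) [IsProbabilityMeasure γ] [NullSingletonClass γ] (y ε : ℝ) (hε : 0 < ε) :
    ∃ δ : ℝ, 0 < δ ∧ γ.real (Set.Iic y) - ε ≤ γ.real (Set.Iic (y - δ)) := by
  have hU : Set.Iio y = ⋃ n : ℕ, Set.Iic (y - 1 / ((n : ℝ) + 1)) := by
    ext z
    simp only [Set.mem_Iio, Set.mem_iUnion, Set.mem_Iic]
    constructor
    · intro hz
      obtain ⟨n, hn⟩ := exists_nat_one_div_lt (sub_pos.2 hz)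
      exact ⟨n, by linarith⟩
    · rintro ⟨n, hn⟩
      have : 0 < 1 / ((n : ℝ) + 1) := by positivity
      linarith
  have hmono : Monotone fun n : ℕ => Set.Iic (y - 1 / ((n : ℝ) + 1)) := by
    intro m n hmn
    refine Set.Iic_subset_Iic.2 ?_
    have : 1 / ((n : ℝ) + 1) ≤ 1 / ((m : ℝ) + 1) := by
      apply one_div_le_one_div_of_le (by positivity)
      have : (m : ℝ) ≤ n := by exact_mod_cast hmn
      linarith
    linarith
  have h1 := tendsto_measure_iUnion_atTop (μ := γ) hmono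
  rw [← hU] at h1
  have h2 : Tendsto (fun n : ℕ => γ.real (Set.Iic (y - 1 / ((n : ℝ) + 1)))) atTop
      (𝓝 (γ.real (Set.Iio y))) :=
    (ENNReal.tendsto_toReal (measure_ne_top _ _)).comp h1
  have h3 : γ.real (Set.Iio y) = γ.real (Set.Iic y) := by
    unfold Measure.real
    rw [measure_congr Iio_ae_eq_Iic]
  rw [h3] at h2
  obtain ⟨n, hn⟩ := (h2.eventually (le_mem_nhds
    (show γ.real (Set.Iic y) - ε < γ.real (Set.Iic y) by linarith))).exists
  exact ⟨1 / ((n : ℝ) + 1), by positivity, hn⟩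

/-- distribution functions -/
theorem trunc {p Y : ℝ → ℝ → ℝ} {ms : ℝ → Measure ℝ} (γ : Measure ℝ) [IsProbabilityMeasure γ]
    [NullSingletonClass γ]
    (hp : ∀ᶠ T : ℝ in atTop, Measurable (p T) ∧ ∀ t, 0 ≤ p T t)
    (hpI : ∀ᶠ T : ℝ in atTop, Integrable (p T) (ms T))
    (hY : ∀ᶠ T : ℝ in atTop, Measurable (Y T))
    (hF : ∀ F : BoundedContinuousFunction ℝ ℝ,
      Tendsto (fun T : ℝ => ∫ t, p T t * F (Y T t) ∂(ms T)) atTop (𝓝 (∫ x, F x ∂γ))) (y : ℝ) :
    Tendsto (fun T : ℝ => ∫ t in {t : ℝ | Y T t ≤ y}, p T t ∂(ms T)) atTop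
      (𝓝 (γ.real (Set.Iic y))) := by
  rw [Metric.tendsto_atTop']
  suffices h : ∀ ε > 0, ∀ᶠ T : ℝ in atTop,
      |(∫ t in {t : ℝ | Y T t ≤ y}, p T t ∂(ms T)) - γ.real (Set.Iic y)| < ε by
    intro ε hε
    obtain ⟨N, hN⟩ := eventually_atTop.1 (h ε hε)
    exact ⟨N, fun n hn => by rw [Real.dist_eq]; exact hN n hn.le⟩
  intro ε hε
  obtain ⟨d1, h1, h1'⟩ := cdf_right γ y (ε / 3) (by positivity)
  obtain ⟨d2, h2, h2'⟩ := cdf_left γ y (ε / 3) (by positivity)
  have a1 := (hF (ramp y (y + d1))).eventually (ge_mem_nhds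
    (show ∫ x, ramp y (y + d1) x ∂γ < ∫ x, ramp y (y + d1) x ∂γ + ε / 3 by linarith))
  have a2 := (hF (ramp (y - d2) y)).eventually (le_mem_nhds
    (show ∫ x, ramp (y - d2) y x ∂γ - ε / 3 < ∫ x, ramp (y - d2) y x ∂γ by linarith))
  have b1 := ramp_up γ (show y < y + d1 by linarith)
  have b2 := ramp_low γ (show y - d2 < y by linarith)
  filter_upwards [a1, a2, hp, hpI, hY] with T c1 c2 hpT hpI hYT
  have mS : MeasurableSet {t : ℝ | Y T t ≤ y} := hYT measurableSet_Iic
  have hind : ∫ t in {t : ℝ | Y T t ≤ y}, p T t ∂(ms T) =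
      ∫ t, {t : ℝ | Y T t ≤ y}.indicator (p T) t ∂(ms T) := (integral_indicator mS).symm
  have hFI : ∀ F : BoundedContinuousFunction ℝ ℝ, (∀ z, 0 ≤ F z) → (∀ z, F z ≤ 1) →
      Integrable (fun t => p T t * F (Y T t)) (ms T) := by
    intro F hF0 hF1
    refine Integrable.mono' hpI ((hpT.1.mul (F.continuous.measurable.comp hYT)).aestronglyMeasurable)
      (Eventually.of_forall fun t => ?_)
    rw [Real.norm_of_nonneg (mul_nonneg (hpT.2 t) (hF0 _))]
    exact mul_le_of_le_one_right (hpT.2 t) (hF1 _)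
  have hIind : Integrable ({t : ℝ | Y T t ≤ y}.indicator (p T)) (ms T) := hpI.indicator mS
  have u1 : ∫ t in {t : ℝ | Y T t ≤ y}, p T t ∂(ms T) ≤
      ∫ t, p T t * ramp y (y + d1) (Y T t) ∂(ms T) := by
    rw [hind]
    refine integral_mono hIind (hFI _ (ramp_nonneg _ _) (ramp_le_one _ _)) (fun t => ?_)
    by_cases ht : t ∈ {t : ℝ | Y T t ≤ y}
    · rw [Set.indicator_of_mem ht]
      have : ramp y (y + d1) (Y T t) = 1 := ramp_one (by linarith) ht
      show p T t ≤ p T t * ramp y (y + d1) (Y T t)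
      rw [this, mul_one]
    · rw [Set.indicator_of_notMem ht]
      exact mul_nonneg (hpT.2 t) (ramp_nonneg _ _ _)
  have u2 : ∫ t, p T t * ramp (y - d2) y (Y T t) ∂(ms T) ≤
      ∫ t in {t : ℝ | Y T t ≤ y}, p T t ∂(ms T) := by
    rw [hind]
    refine integral_mono (hFI _ (ramp_nonneg _ _) (ramp_le_one _ _)) hIind (fun t => ?_)
    by_cases ht : t ∈ {t : ℝ | Y T t ≤ y}
    · rw [Set.indicator_of_mem ht]
      exact mul_le_of_le_one_right (hpT.2 t) (ramp_le_one _ _ _)
    · rw [Set.indicator_of_notMem ht]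
      have hy : y ≤ Y T t := by simpa using (not_le.mp ht).le
      have : ramp (y - d2) y (Y T t) = 0 := ramp_zero (by linarith) hy
      show p T t * ramp (y - d2) y (Y T t) ≤ 0
      rw [this, mul_zero]
  rw [abs_lt]
  constructor <;> linarith

end Pool.Agent.R313
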