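import Mathlib
import Pool.Agent.H88R3.MM.Power
import Pool.Agent.H88R3.MM.Circ

set_option autoImplicit false

/-!
# Bilinear algorithms for matrix multiplication with few different linear forms
-/

namespace Pool.Agent.R313.FF

open Finset Module Pool.Agent.H88R3.MM Pool.Agent.H522R2

variable {F : Type*} [Field F]

/-- A linearly independent family in a product of vector spaces can be distributed so that the
components are linearly independent. -/
theorem exists_distribution {ι I V : Type*} [Fintype ι] [Fintype I]
    [AddCommGroup V] [Module F V] (D : ι → I → V)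
    (hD : LinearIndependent F D) :
    ∃ c : ι → I, ∀ i, LinearIndependent F (fun b : {b : ι // c b = i} => D b.1 i) := by
  classical
  -- an alternating map which does not vanish at `D`
  obtain ⟨g, hg⟩ := (Fintype.linearCombination F D).exists_leftInverse_of_injective
    (LinearMap.ker_eq_bot.2 (by
      rw [linearIndependent_iff_injective_fintypeLinearCombination] at hD
      exact hD))
  have hgD : ∀ b, g (D b) = Pi.single b 1 := by
    intro b
    have h1 := LinearMap.congr_fun hg (Pi.single b 1)
    simpa using h1
  let f : (I → V) [⋀^ι]→ₗ[F] F := (Matrix.detRowAlternating (R := F) (n := ι)).compLinearMap g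
  have hf : f D ≠ 0 := by
    have h1 : f D = Matrix.det (fun b => g (D b)) := rfl
    rw [h1]
    have h2 : (fun b => g (D b)) = (1 : Matrix ι ι F) := by
      funext b
      rw [hgD]
      ext j
      simp [Matrix.one_apply, Pi.single_apply, eq_comm]
    rw [h2, Matrix.det_one]
    exact one_ne_zero
  have hsum : f D = ∑ c : ι → I, f (fun b => Pi.single (c b) (D b (c b))) := by
    have h1 : D = fun b => ∑ i, Pi.single i (D b i) := by
      funext b
      exact (Finset.univ_sum_single (D b)).symm
    conv_lhs => rw [h1]
    exact f.toMultilinearMap.map_sum (fun b i => Pi.single i (D b i))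
  have hex : ∃ c : ι → I, f (fun b => Pi.single (c b) (D b (c b))) ≠ 0 := by
    by_contra hcon
    push Not at hcon
    exact hf (by rw [hsum]; exact Finset.sum_eq_zero fun c _ => hcon c)
  obtain ⟨c, hc⟩ := hex
  refine ⟨c, fun i => ?_⟩
  have hli : LinearIndependent F (fun b => (Pi.single (c b) (D b (c b)) : I → V)) := by
    by_contra hcon
    exact hc (f.map_linearDependent _ hcon)
  have h2 : LinearIndependent F
      (fun b : {b : ι // c b = i} => (Pi.single (c b.1) (D b.1 (c b.1)) : I → V)) :=
    hli.comp _ Subtype.val_injective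
  have h3 : (fun b : {b : ι // c b = i} => (Pi.single (c b.1) (D b.1 (c b.1)) : I → V)) =
      (LinearMap.single F (fun _ : I => V) i) ∘ (fun b : {b : ι // c b = i} => D b.1 i) := by
    funext b
    obtain ⟨b, rfl⟩ := b
    rfl
  rw [h3] at h2
  exact h2.of_comp _

/-- the linear form with the coefficient matrix `X` -/
def form {I J : Type*} [Fintype I] [Fintype J] (X : Matrix I J F) : Matrix I J F →ₗ[F] F where
  toFun A := ∑ i, ∑ j, X i j * A i j
  map_add' A B := by
    simp only [Matrix.add_apply, mul_add, Finset.sum_add_distrib]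
  map_smul' c A := by
    simp only [Matrix.smul_apply, smul_eq_mul, RingHom.id_apply, Finset.mul_sum]
    exact Finset.sum_congr rfl fun i _ => Finset.sum_congr rfl fun j _ => by ring

theorem form_smul {I J : Type*} [Fintype I] [Fintype J] (c : F) (X A : Matrix I J F) :
    form (c • X) A = c * form X A := by
  change ∑ i, ∑ j, (c • X) i j * A i j = c * ∑ i, ∑ j, X i j * A i j
  simp only [Matrix.smul_apply, smul_eq_mul, Finset.mul_sum]
  exact Finset.sum_congr rfl fun i _ => Finset.sum_congr rfl fun j _ => by ring

/-- Linear forms whose common zeros annihilate linearly independent rows. -/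
theorem card_le_of_ker {J K U S : Type*} [Fintype J] [Fintype K] [Fintype U] [Fintype S]
    (x : U → J → F) (hx : LinearIndependent F x) (g : S → Matrix J K F)
    (h : ∀ B : Matrix J K F, (∀ s, form (g s) B = 0) → ∀ u k, ∑ j, x u j * B j k = 0) :
    Fintype.card K * Fintype.card U ≤ Fintype.card S := by
  classical
  let Φ : Matrix J K F →ₗ[F] (U → K → F) :=
    { toFun := fun B u k => ∑ j, x u j * B j k
      map_add' := fun A B => by
        funext u k
        simp only [Matrix.add_apply, mul_add, Finset.sum_add_distrib, Pi.add_apply]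
      map_smul' := fun c A => by
        funext u k
        simp only [Matrix.smul_apply, smul_eq_mul, RingHom.id_apply, Finset.mul_sum,
          Pi.smul_apply]
        exact Finset.sum_congr rfl fun j _ => by ring }
  let Ψ : Matrix J K F →ₗ[F] (S → F) := LinearMap.pi fun s => form (g s)
  have hker : LinearMap.ker Ψ ≤ LinearMap.ker Φ := by
    intro B hB
    rw [LinearMap.mem_ker] at hB ⊢
    funext u k
    exact h B (fun s => congrFun hB s) u k
  have hsurj : Function.Surjective Φ := by
    intro y
    obtain ⟨g', hg'⟩ := (Fintype.linearCombination F x).exists_leftInverse_of_injective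
      (LinearMap.ker_eq_bot.2 (by
        rw [linearIndependent_iff_injective_fintypeLinearCombination] at hx
        exact hx))
    have hgx : ∀ b, g' (x b) = Pi.single b 1 := by
      intro b
      have h1 := LinearMap.congr_fun hg' (Pi.single b 1)
      simpa using h1
    refine ⟨Matrix.of fun j k => ∑ u, y u k * g' (Pi.single j 1) u, ?_⟩
    funext u k
    change ∑ j, x u j * ∑ u', y u' k * g' (Pi.single j 1) u' = y u k
    have h1 : ∀ u', ∑ j, x u j * g' (Pi.single j 1) u' = g' (x u) u' := by
      intro u'
      conv_rhs => rw [pi_eq_sum_univ' (x u)]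
      rw [map_sum, Finset.sum_apply]
      refine Finset.sum_congr rfl fun j _ => ?_
      rw [map_smul, Pi.smul_apply, smul_eq_mul]
    calc ∑ j, x u j * ∑ u', y u' k * g' (Pi.single j 1) u'
        = ∑ u', y u' k * ∑ j, x u j * g' (Pi.single j 1) u' := by
          simp only [Finset.mul_sum]
          rw [Finset.sum_comm]
          exact Finset.sum_congr rfl fun a _ => Finset.sum_congr rfl fun b _ => by ring
      _ = y u k := by
          simp only [h1, hgx]
          simp [Pi.single_apply]
  have e1 := LinearMap.finrank_range_add_finrank_ker Φ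
  have e2 := LinearMap.finrank_range_add_finrank_ker Ψ
  have e3 := Submodule.finrank_mono hker
  have e4 : finrank F (LinearMap.range Φ) = Fintype.card K * Fintype.card U := by
    rw [LinearMap.range_eq_top.2 hsurj, finrank_top, Module.finrank_pi_fintype]
    simp [mul_comm]
  have e5 : finrank F (LinearMap.range Ψ) ≤ Fintype.card S := by
    refine (Submodule.finrank_le _).trans ?_
    simp
  omega

section core

variable {I J K L ι : Type*} [Fintype I] [Fintype J] [Fintype K] [Fintype L] [Fintype ι]
  {U : L → Matrix I J F} {V : L → Matrix J K F} {W : L → Matrix I K F}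

theorem IsAlg.form_eq (h : IsAlg U V W) (A : Matrix I J F) (B : Matrix J K F) :
    A * B = ∑ l, (form (U l) A * form (V l) B) • W l := h A B

/-- A matrix on which all forms `U l` vanish is zero. -/
theorem IsAlg.eq_zero [Nonempty K] (h : IsAlg U V W) {A : Matrix I J F}
    (hA : ∀ l, form (U l) A = 0) : A = 0 := by
  classical
  obtain ⟨k0⟩ := ‹Nonempty K›
  ext i j
  have h1 := congrFun (congrFun (IsAlg.form_eq h A (Matrix.single j k0 1)) i) k0
  rw [Matrix.sum_apply] at h1
  simp only [hA, zero_mul, zero_smul, Matrix.zero_apply, Finset.sum_const_zero] at h1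
  rw [Matrix.mul_apply, Finset.sum_eq_single j] at h1
  · simpa using h1
  · intro b _ hb
    rw [Matrix.single_apply_of_ne _ _ _ _ _ (by simp [Ne.symm hb]), mul_zero]
  · simp

/-- The inequality for algorithms in which the first forms of all products which are not in `Z`
are multiples of `|I| |J| + k` forms without a common zero. -/
theorem IsAlg.few_forms (h : IsAlg U V W) (Z : Finset L) (X : ι → Matrix I J F) (φ : L → ι)
    (hX : ∀ l ∉ Z, ∃ c : F, U l = c • X (φ l))
    (hsep : ∀ A : Matrix I J F, (∀ j, form (X j) A = 0) → A = 0) (k : ℕ)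
    (hk : Fintype.card ι ≤ Fintype.card I * Fintype.card J + k) (θ : ℝ) (h0 : 0 ≤ θ)
    (h1 : θ ≤ Fintype.card K) :
    θ * (Fintype.card I * Fintype.card J * Fintype.card K) ≤
      Fintype.card K * (Fintype.card L - Z.card) + Fintype.card I * (k * θ ^ 2 + Z.card * θ) := by
  classical
  -- heavy forms
  set cnt : ι → ℕ := fun j => (univ.filter fun l => l ∉ Z ∧ φ l = j).card with hcnt
  set H : Finset ι := univ.filter fun j => θ ≤ cnt j with hH
  let RH : Matrix I J F →ₗ[F] (H → F) := LinearMap.pi fun j => form (X j)
  set W0 : Submodule F (Matrix I J F) := LinearMap.ker RH with hW0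
  have hdimW : Fintype.card I * Fintype.card J ≤ finrank F W0 + H.card := by
    have e1 := LinearMap.finrank_range_add_finrank_ker RH
    have e2 : finrank F (LinearMap.range RH) ≤ H.card := by
      refine (Submodule.finrank_le _).trans ?_
      simp
    rw [Module.finrank_matrix, Module.finrank_self, mul_one] at e1
    rw [hW0]
    omega
  have hW0H : ∀ A ∈ W0, ∀ j ∈ H, form (X j) A = 0 := by
    intro A hA j hj
    have := congrFun (LinearMap.mem_ker.1 hA) ⟨j, hj⟩
    exact this
  -- a basis of the light forms
  let v : {j : ι // j ∉ H} → Dual F W0 := fun j => (form (X j.1)).comp W0.subtype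
  obtain ⟨κ, a, ha, hspan, hli⟩ := exists_linearIndependent' F v
  have hκ : Finite κ := Finite.of_injective a ha
  have := Fintype.ofFinite κ
  let G : W0 →ₗ[F] (κ → F) := LinearMap.pi fun b => v (a b)
  have hG : Function.Injective G := by
    rw [← LinearMap.ker_eq_bot, LinearMap.ker_eq_bot']
    intro A hA
    have e1 : ∀ x ∈ Submodule.span F (Set.range (v ∘ a)), x A = 0 := by
      intro x hx
      induction hx using Submodule.span_induction with
      | mem x hx =>
        obtain ⟨b, rfl⟩ := hx
        exact congrFun hA b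
      | zero => rfl
      | add x y _ _ hx hy => rw [LinearMap.add_apply, hx, hy, add_zero]
      | smul c x _ hx => rw [LinearMap.smul_apply, hx, smul_zero]
    rw [hspan] at e1
    apply Subtype.ext
    refine hsep A (fun j => ?_)
    by_cases hl : j ∈ H
    · exact hW0H _ A.2 _ hl
    · exact e1 (v ⟨j, hl⟩) (Submodule.subset_span ⟨_, rfl⟩)
  have hcardκ : Fintype.card κ = finrank F W0 := by
    apply le_antisymm
    · have := hli.fintype_card_le_finrank
      rwa [Subspace.dual_finrank_eq] at this
    · have := LinearMap.finrank_le_finrank_of_injective hG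
      simpa using this
  let e : W0 ≃ₗ[F] (κ → F) := LinearMap.linearEquivOfInjective G hG (by simp [hcardκ])
  have he : ∀ A, e A = G A := fun A => LinearMap.linearEquivOfInjective_apply hG _ A
  -- the dual basis
  let D : κ → Matrix I J F := fun b => (e.symm (Pi.single b 1) : W0)
  have hDW : ∀ b, D b ∈ W0 := fun b => (e.symm (Pi.single b 1)).2
  have hDf : ∀ b b', form (X (a b').1) (D b) = if b' = b then 1 else 0 := by
    intro b b'
    have e1 : G (e.symm (Pi.single b 1)) = Pi.single b 1 := by
      rw [← he, LinearEquiv.apply_symm_apply]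
    have e2 := congrFun e1 b'
    rw [Pi.single_apply] at e2
    exact e2
  have hDli : LinearIndependent F (fun b => (D b : I → J → F)) := by
    rw [Fintype.linearIndependent_iff]
    intro g hg b'
    have e1 : form (X (a b').1) (∑ b, g b • D b) = g b' := by
      rw [map_sum]
      simp only [map_smul, hDf, smul_eq_mul, mul_ite, mul_one, mul_zero]
      simp
    rw [← e1]
    have e2 : (∑ b, g b • D b : Matrix I J F) = 0 := hg
    rw [e2, map_zero]
  obtain ⟨c, hc⟩ := exists_distribution (fun b => (D b : I → J → F)) hDli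
  -- the extra forms
  let isE : ι → Prop := fun j => j ∉ H ∧ ∀ b, (a b).1 ≠ j
  set E : Finset ι := univ.filter isE with hE
  have hEcard : E.card ≤ k := by
    have e1 : (univ : Finset ι).card = H.card + ((univ : Finset κ).image fun b => (a b).1).card +
        E.card := by
      rw [← card_union_of_disjoint, ← card_union_of_disjoint]
      · congr 1
        ext j
        simp only [mem_univ, mem_union, mem_image, true_and, hE, mem_filter, isE, true_iff]
        by_cases h3 : j ∈ H
        · exact Or.inl (Or.inl h3)
        · by_cases h4 : ∃ b, (a b).1 = j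
          · exact Or.inl (Or.inr h4)
          · push Not at h4
            exact Or.inr ⟨h3, h4⟩
      · rw [Finset.disjoint_left]
        intro j hj hj'
        rw [hE, mem_filter] at hj'
        rcases mem_union.1 hj with h3 | h3
        · exact hj'.2.1 h3
        · obtain ⟨b, _, hb⟩ := mem_image.1 h3
          exact hj'.2.2 b hb
      · rw [Finset.disjoint_left]
        intro j hj hj'
        obtain ⟨b, _, hb⟩ := mem_image.1 hj'
        exact (a b).2 (hb ▸ hj)
    have e2 : ((univ : Finset κ).image fun b => (a b).1).card = Fintype.card κ := by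
      rw [card_image_of_injective _ (fun b b' hb => ha (Subtype.ext hb)), card_univ]
    rw [card_univ, e2, hcardκ] at e1
    omega
  -- the classes
  let SE : Finset L := univ.filter fun l => l ∉ Z ∧ φ l ∈ E
  let SB : I → Finset L := fun i => univ.filter fun l => l ∉ Z ∧ ∃ b, c b = i ∧ φ l = (a b).1
  have hclass : ∀ i, Fintype.card K * Fintype.card {b : κ // c b = i} ≤
      (Z.card + SE.card) + (SB i).card := by
    intro i
    refine le_trans ?_ ((card_union_le _ _).trans (Nat.add_le_add_right (card_union_le _ _) _))
    have e1 := card_le_of_ker (K := K) (S := ↥((Z ∪ SE) ∪ SB i))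
      (fun b : {b : κ // c b = i} => D b.1 i) (hc i) (fun l => V l.1) ?_
    · refine e1.trans (le_of_eq ?_)
      rw [Fintype.card_coe]
    · intro B hB b k'
      have e2 : D b.1 * B = 0 := by
        rw [IsAlg.form_eq h (D b.1) B]
        refine Finset.sum_eq_zero fun l _ => ?_
        by_cases hlZ : l ∈ Z
        · have h6 : l ∈ (Z ∪ SE) ∪ SB i := mem_union_left _ (mem_union_left _ hlZ)
          rw [hB ⟨l, h6⟩, mul_zero, zero_smul]
        obtain ⟨c', hc'⟩ := hX l hlZ
        by_cases h3 : φ l ∈ H
        · rw [hc', form_smul, hW0H _ (hDW b.1) _ h3, mul_zero, zero_mul, zero_smul]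
        · by_cases h4 : ∃ b', (a b').1 = φ l
          · obtain ⟨b', hb'⟩ := h4
            by_cases h5 : b' = b.1
            · have h6 : l ∈ (Z ∪ SE) ∪ SB i := by
                refine mem_union_right _ (mem_filter.2 ⟨mem_univ _, hlZ, b', ?_, hb'.symm⟩)
                rw [h5]
                exact b.2
              rw [hB ⟨l, h6⟩, mul_zero, zero_smul]
            · rw [hc', form_smul, ← hb', hDf, if_neg h5, mul_zero, zero_mul, zero_smul]
          · push Not at h4
            have h6 : l ∈ (Z ∪ SE) ∪ SB i :=
              mem_union_left _ (mem_union_right _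
                (mem_filter.2 ⟨mem_univ _, hlZ, mem_filter.2 ⟨mem_univ _, h3, h4⟩⟩))
            rw [hB ⟨l, h6⟩, mul_zero, zero_smul]
      have e3 := congrFun (congrFun e2 i) k'
      rw [Matrix.mul_apply] at e3
      exact e3
  -- the counting
  let LH : Finset L := univ.filter fun l => l ∉ Z ∧ φ l ∈ H
  let LB : Finset L := univ.filter fun l => l ∉ Z ∧ ∃ b, φ l = (a b).1
  have hSBsum : ∑ i, (SB i).card ≤ LB.card := by
    rw [← card_biUnion]
    · refine card_le_card fun l hl => ?_
      obtain ⟨i, _, hi⟩ := mem_biUnion.1 hl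
      obtain ⟨hlZ, b, _, hb⟩ := (mem_filter.1 hi).2
      exact mem_filter.2 ⟨mem_univ _, hlZ, b, hb⟩
    · intro i _ i' _ hii
      rw [Function.onFun, Finset.disjoint_left]
      intro l hl hl'
      obtain ⟨_, b, hb1, hb2⟩ := (mem_filter.1 hl).2
      obtain ⟨_, b', hb1', hb2'⟩ := (mem_filter.1 hl').2
      have : b = b' := ha (Subtype.ext (hb2 ▸ hb2'))
      subst this
      exact hii (hb1 ▸ hb1')
  have hκsum : ∑ i, Fintype.card {b : κ // c b = i} = Fintype.card κ := by
    rw [← Fintype.card_sigma]
    exact Fintype.card_congr (Equiv.sigmaFiberEquiv c)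
  have hL : Z.card + LH.card + LB.card ≤ Fintype.card L := by
    rw [← card_union_of_disjoint, ← card_union_of_disjoint]
    · exact card_le_univ _
    · rw [Finset.disjoint_left]
      intro l hl hl'
      obtain ⟨hlZ, b, hb⟩ := (mem_filter.1 hl').2
      rcases mem_union.1 hl with h3 | h3
      · exact hlZ h3
      · exact (a b).2 (hb ▸ (mem_filter.1 h3).2.2)
    · rw [Finset.disjoint_left]
      intro l hl hl'
      exact (mem_filter.1 hl').2.1 hl
  have hLH : θ * H.card ≤ LH.card := by
    have e1 : LH.card = ∑ j ∈ H, cnt j := by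
      rw [hcnt]
      simp only
      rw [← card_biUnion]
      · congr 1
        ext l
        simp [LH, and_comm]
      · intro j _ j' _ hjj
        rw [Function.onFun, Finset.disjoint_left]
        intro l hl hl'
        exact hjj ((mem_filter.1 hl).2.2 ▸ (mem_filter.1 hl').2.2)
    rw [e1]
    push_cast
    rw [mul_comm, ← nsmul_eq_mul]
    exact Finset.card_nsmul_le_sum _ _ _ fun j hj => (mem_filter.1 hj).2
  have hSE : (SE.card : ℝ) ≤ k * θ := by
    have e1 : SE.card = ∑ j ∈ E, cnt j := by
      rw [hcnt]
      simp only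
      rw [← card_biUnion]
      · congr 1
        ext l
        simp [SE, and_comm]
      · intro j _ j' _ hjj
        rw [Function.onFun, Finset.disjoint_left]
        intro l hl hl'
        exact hjj ((mem_filter.1 hl).2.2 ▸ (mem_filter.1 hl').2.2)
    rw [e1]
    push_cast
    have e2 : ∑ j ∈ E, (cnt j : ℝ) ≤ E.card • θ := by
      refine Finset.sum_le_card_nsmul _ _ _ fun j hj => ?_
      have h3 := (mem_filter.1 hj).2.1
      rw [hH, mem_filter] at h3
      push Not at h3
      exact (h3 (mem_univ _)).le
    refine e2.trans ?_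
    rw [nsmul_eq_mul]
    exact mul_le_mul_of_nonneg_right (by exact_mod_cast hEcard) h0
  have hsum : Fintype.card K * Fintype.card κ ≤ Fintype.card I * (Z.card + SE.card) +
      LB.card := by
    calc Fintype.card K * Fintype.card κ = ∑ i, Fintype.card K * Fintype.card {b : κ // c b = i} := by
          rw [← Finset.mul_sum, hκsum]
      _ ≤ ∑ i, ((Z.card + SE.card) + (SB i).card) := Finset.sum_le_sum fun i _ => hclass i
      _ = Fintype.card I * (Z.card + SE.card) + ∑ i, (SB i).card := by
          rw [Finset.sum_add_distrib, Finset.sum_const, card_univ, smul_eq_mul]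
      _ ≤ _ := Nat.add_le_add_left hSBsum _
  -- real numbers
  have r1 : (Fintype.card I * Fintype.card J : ℝ) ≤ Fintype.card κ + H.card := by
    rw [hcardκ]
    exact_mod_cast hdimW
  have r2 : (Fintype.card K * Fintype.card κ : ℝ) ≤ Fintype.card I * (Z.card + SE.card) +
      LB.card := by exact_mod_cast hsum
  have r3 : (Z.card : ℝ) + LH.card + LB.card ≤ Fintype.card L := by
    exact_mod_cast hL
  have r4 : (0 : ℝ) ≤ LB.card := Nat.cast_nonneg _
  generalize (LB.card : ℝ) = rB at r2 r3 r4
  have hI0 : (0 : ℝ) ≤ Fintype.card I := Nat.cast_nonneg _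
  have hK0 : (0 : ℝ) ≤ Fintype.card K := Nat.cast_nonneg _
  calc θ * (Fintype.card I * Fintype.card J * Fintype.card K)
      = θ * Fintype.card K * (Fintype.card I * Fintype.card J) := by ring
    _ ≤ θ * Fintype.card K * (Fintype.card κ + H.card) :=
        mul_le_mul_of_nonneg_left r1 (mul_nonneg h0 hK0)
    _ = θ * (Fintype.card K * Fintype.card κ) + Fintype.card K * (θ * H.card) := by ring
    _ ≤ θ * (Fintype.card I * (Z.card + SE.card) + rB) + Fintype.card K * LH.card :=
        add_le_add (mul_le_mul_of_nonneg_left r2 h0) (mul_le_mul_of_nonneg_left hLH hK0)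
    _ ≤ θ * (Fintype.card I * (Z.card + k * θ)) + Fintype.card K * rB +
          Fintype.card K * LH.card := by
        have e1 := mul_le_mul_of_nonneg_left (mul_le_mul_of_nonneg_left
          (add_le_add_right hSE (Z.card : ℝ)) hI0) h0
        have e2 := mul_le_mul_of_nonneg_right h1 r4
        nlinarith [e1, e2]
    _ = Fintype.card K * (LH.card + rB) + Fintype.card I * (k * θ ^ 2 + Z.card * θ) := by ring
    _ ≤ Fintype.card K * (Fintype.card L - Z.card) +
          Fintype.card I * (k * θ ^ 2 + Z.card * θ) := by
        refine add_le_add_left (mul_le_mul_of_nonneg_left ?_ hK0) _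
        linarith

theorem form_add_left (X Y A : Matrix I J F) : form (X + Y) A = form X A + form Y A := by
  change ∑ i, ∑ j, (X + Y) i j * A i j = ∑ i, ∑ j, X i j * A i j + ∑ i, ∑ j, Y i j * A i j
  simp only [Matrix.add_apply, add_mul, Finset.sum_add_distrib]

theorem form_single [DecidableEq I] [DecidableEq J] (i : I) (j : J) (A : Matrix I J F) :
    form (Matrix.single i j 1) A = A i j := by
  change ∑ i', ∑ j', (Matrix.single i j (1 : F)) i' j' * A i' j' = A i j
  rw [Finset.sum_eq_single i, Finset.sum_eq_single j]
  · simp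
  · intro b _ hb
    simp [Ne.symm hb]
  · simp
  · intro a _ ha
    simp [Ne.symm ha]
  · simp

/-- The inequality for algorithms in which the first forms of all products which are not in `Z`
are multiples of the members of a list of forms with nullity at most `k`. -/
theorem IsAlg.few_forms_span (h : IsAlg U V W) (Z : Finset L) (X : ι → Matrix I J F)
    (hX : ∀ l ∉ Z, ∃ (j : ι) (c : F), U l = c • X j) (k : ℕ)
    (hk : Fintype.card ι ≤ finrank F (Submodule.span F (Set.range X)) + k) (θ : ℝ) (h0 : 0 ≤ θ)
    (h1 : θ ≤ Fintype.card K) :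
    θ * (Fintype.card I * Fintype.card J * Fintype.card K) ≤
      Fintype.card K * (Fintype.card L - Z.card) + Fintype.card I * (k * θ ^ 2 + Z.card * θ) := by
  classical
  set S := Submodule.span F (Set.range X) with hS
  obtain ⟨C, hC⟩ := Submodule.exists_isCompl S
  let bC := Module.finBasis F C
  let X' : ι ⊕ Fin (finrank F C) → Matrix I J F := Sum.elim X (fun t => (bC t : Matrix I J F))
  have hcard : Fintype.card (ι ⊕ Fin (finrank F C)) ≤ Fintype.card I * Fintype.card J + k := by
    have e1 := Submodule.finrank_add_eq_of_isCompl hC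
    rw [Module.finrank_matrix, Module.finrank_self, mul_one] at e1
    rw [Fintype.card_sum, Fintype.card_fin]
    omega
  have hsep : ∀ A : Matrix I J F, (∀ j, form (X' j) A = 0) → A = 0 := by
    intro A hA
    have e1 : ∀ Y : Matrix I J F, Y ∈ Submodule.span F (Set.range X') → form Y A = 0 := by
      intro Y hY
      induction hY using Submodule.span_induction with
      | mem x hx =>
        obtain ⟨b, rfl⟩ := hx
        exact hA b
      | zero =>
        have := form_smul (0 : F) (0 : Matrix I J F) A
        simpa using this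
      | add x y _ _ hx hy => rw [form_add_left, hx, hy, add_zero]
      | smul c x _ hx => rw [form_smul, hx, mul_zero]
    have e2 : Submodule.span F (Set.range X') = ⊤ := by
      rw [eq_top_iff, ← hC.sup_eq_top]
      refine sup_le ?_ ?_
      · rw [hS]
        refine Submodule.span_mono ?_
        rintro _ ⟨j, rfl⟩
        exact ⟨Sum.inl j, rfl⟩
      · intro y hy
        have e3 := bC.sum_repr ⟨y, hy⟩
        have e4 : (∑ t, bC.repr ⟨y, hy⟩ t • (bC t : Matrix I J F)) = y := by
          have e5 := congrArg C.subtype e3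
          rw [map_sum] at e5
          exact e5
        rw [← e4]
        refine Submodule.sum_mem _ fun t _ => Submodule.smul_mem _ _
          (Submodule.subset_span ⟨Sum.inr t, rfl⟩)
    ext i j
    rw [← form_single i j A, e1 _ (e2 ▸ Submodule.mem_top)]
    rfl
  by_cases hne : Nonempty (ι ⊕ Fin (finrank F C))
  · obtain ⟨j0⟩ := hne
    choose φ c hφ using fun l : {l // l ∉ Z} => hX l.1 l.2
    refine IsAlg.few_forms h Z X' (fun l => if hl : l ∉ Z then Sum.inl (φ ⟨l, hl⟩) else j0)
      (fun l hl => ⟨c ⟨l, hl⟩, ?_⟩) hsep k hcard θ h0 h1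
    rw [dif_pos hl]
    exact hφ ⟨l, hl⟩
  · have e1 : (Fintype.card I * Fintype.card J : ℝ) = 0 := by
      by_contra hcon
      have h2 : 0 < Fintype.card I := Nat.pos_of_ne_zero fun h3 => hcon (by simp [h3])
      have h3 : 0 < Fintype.card J := Nat.pos_of_ne_zero fun h3 => hcon (by simp [h3])
      obtain ⟨i⟩ := Fintype.card_pos_iff.1 h2
      obtain ⟨j⟩ := Fintype.card_pos_iff.1 h3
      have h4 := hsep (fun _ _ => 1) (fun j => (hne ⟨j⟩).elim)
      exact one_ne_zero (congrFun (congrFun h4 i) j)
    rw [e1, zero_mul, mul_zero]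
    have e2 : (Z.card : ℝ) ≤ Fintype.card L := by exact_mod_cast card_le_univ Z
    have e3 : (0 : ℝ) ≤ Fintype.card L - Z.card := by linarith
    positivity

theorem IsAlg.transpose (h : IsAlg U V W) :
    IsAlg (fun l => (V l).transpose) (fun l => (U l).transpose) (fun l => (W l).transpose) := by
  classical
  refine isAlg_of_coeff ?_
  intro k k' j j' i i'
  simp only [Matrix.transpose_apply]
  have h1 := h.coeff i i' j' j k k'
  refine Eq.trans (Finset.sum_congr rfl fun l _ => ?_) (h1.trans (if_congr ?_ rfl rfl))
  · ring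
  · tauto

theorem IsAlg.rotate (h : IsAlg U V W) :
    IsAlg (fun l => W l) (fun l => (V l).transpose) (fun l => U l) := by
  classical
  refine isAlg_of_coeff ?_
  intro i i' k k' j j'
  simp only [Matrix.transpose_apply]
  have h1 := h.coeff i' i j' j k' k
  refine Eq.trans (Finset.sum_congr rfl fun l _ => ?_) (h1.trans (if_congr ?_ rfl rfl))
  · ring
  · tauto

end core

/-- Square matrices, first forms. -/
theorem square_first {n : ℕ} {L ι : Type*} [Fintype L] [Fintype ι]
    {U V W : L → Matrix (Fin n) (Fin n) F} (h : IsAlg U V W) (Z : Finset L)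
    (X : ι → Matrix (Fin n) (Fin n) F) (hX : ∀ l ∉ Z, ∃ (j : ι) (c : F), U l = c • X j) (k : ℕ)
    (hk : Fintype.card ι ≤ finrank F (Submodule.span F (Set.range X)) + k) (θ : ℝ) (h0 : 0 ≤ θ)
    (h1 : θ ≤ n) :
    θ * n ^ 2 ≤ (Fintype.card L - Z.card) + k * θ ^ 2 + Z.card * θ := by
  have h2 := IsAlg.few_forms_span h Z X hX k hk θ h0 (by rwa [Fintype.card_fin])
  rw [Fintype.card_fin] at h2
  rcases Nat.eq_zero_or_pos n with hn | hn
  · subst hn
    have : θ = 0 := le_antisymm (by simpa using h1) h0
    subst this
    have e2 : (Z.card : ℝ) ≤ Fintype.card L := by exact_mod_cast card_le_univ Z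
    simp
    exact_mod_cast e2
  · have hn' : (0 : ℝ) < n := by exact_mod_cast hn
    refine le_of_mul_le_mul_left ?_ hn'
    linarith

theorem span_transpose {n : ℕ} {ι : Type*} (X : ι → Matrix (Fin n) (Fin n) F) :
    finrank F (Submodule.span F (Set.range fun j => (X j).transpose)) =
      finrank F (Submodule.span F (Set.range X)) := by
  have e1 : Submodule.span F (Set.range fun j => (X j).transpose) =
      (Submodule.span F (Set.range X)).map
        (Matrix.transposeLinearEquiv (Fin n) (Fin n) F F).toLinearMap := by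
    rw [Submodule.map_span, ← Set.range_comp]
    rfl
  rw [e1]
  exact LinearEquiv.finrank_map_eq _ _

/-- Square matrices, all three families of forms. -/
theorem square_any {n : ℕ} {L ι : Type*} [Fintype L] [Fintype ι]
    {U V W : L → Matrix (Fin n) (Fin n) F} (h : IsAlg U V W) (Z : Finset L)
    (X : ι → Matrix (Fin n) (Fin n) F)
    (hX : (∀ l ∉ Z, ∃ (j : ι) (c : F), U l = c • X j) ∨
      (∀ l ∉ Z, ∃ (j : ι) (c : F), V l = c • X j) ∨
      ∀ l ∉ Z, ∃ (j : ι) (c : F), W l = c • X j) (k : ℕ)
    (hk : Fintype.card ι ≤ finrank F (Submodule.span F (Set.range X)) + k) (θ : ℝ) (h0 : 0 ≤ θ)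
    (h1 : θ ≤ n) :
    θ * n ^ 2 ≤ (Fintype.card L - Z.card) + k * θ ^ 2 + Z.card * θ := by
  rcases hX with hX | hX | hX
  · exact square_first h Z X hX k hk θ h0 h1
  · refine square_first (IsAlg.transpose h) Z (fun j => (X j).transpose) (fun l hl => ?_) k
      (by rw [span_transpose]; exact hk) θ h0 h1
    obtain ⟨j, c, hc⟩ := hX l hl
    exact ⟨j, c, by simp only [hc, Matrix.transpose_smul]⟩
  · exact square_first (IsAlg.rotate h) Z X hX k hk θ h0 h1

/-- Square matrices, first forms, without exceptional products. -/
theorem square_first0 {n : ℕ} {L ι : Type*} [Fintype L] [Fintype ι]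
    {U V W : L → Matrix (Fin n) (Fin n) F} (h : IsAlg U V W)
    (X : ι → Matrix (Fin n) (Fin n) F) (hX : ∀ l, ∃ (j : ι) (c : F), U l = c • X j) (k : ℕ)
    (hk : Fintype.card ι ≤ n ^ 2 + k) (θ : ℝ) (h0 : 0 ≤ θ) (h1 : θ ≤ n) :
    θ * n ^ 2 ≤ Fintype.card L + k * θ ^ 2 := by
  rcases Nat.eq_zero_or_pos n with hn | hn
  · subst hn
    have : θ = 0 := le_antisymm (by simpa using h1) h0
    subst this
    simp
  · haveI : Nonempty (Fin n) := ⟨⟨0, hn⟩⟩
    have hn' : (0 : ℝ) < n := by exact_mod_cast hn
    choose φ c hφ using hX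
    have h2 := IsAlg.few_forms h ∅ X φ (fun l _ => ⟨c l, hφ l⟩) (fun A hA =>
      IsAlg.eq_zero h fun l => by rw [hφ, form_smul, hA, mul_zero]) k
      (by rw [Fintype.card_fin]; rw [pow_two] at hk; exact hk) θ h0 (by rwa [Fintype.card_fin])
    rw [Fintype.card_fin] at h2
    simp only [card_empty, Nat.cast_zero, sub_zero, zero_mul, add_zero] at h2
    refine le_of_mul_le_mul_left ?_ hn'
    linarith

/-- Square matrices, all three families of forms, without exceptional products. -/
theorem square_any0 {n : ℕ} {L ι : Type*} [Fintype L] [Fintype ι]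
    {U V W : L → Matrix (Fin n) (Fin n) F} (h : IsAlg U V W)
    (X : ι → Matrix (Fin n) (Fin n) F)
    (hX : (∀ l, ∃ (j : ι) (c : F), U l = c • X j) ∨
      (∀ l, ∃ (j : ι) (c : F), V l = c • X j) ∨
      ∀ l, ∃ (j : ι) (c : F), W l = c • X j) (k : ℕ)
    (hk : Fintype.card ι ≤ n ^ 2 + k) (θ : ℝ) (h0 : 0 ≤ θ) (h1 : θ ≤ n) :
    θ * n ^ 2 ≤ Fintype.card L + k * θ ^ 2 := by
  rcases hX with hX | hX | hX
  · exact square_first0 h X hX k hk θ h0 h1
  · refine square_first0 (IsAlg.transpose h) (fun j => (X j).transpose) (fun l => ?_) k hk θ h0 h1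
    obtain ⟨j, c, hc⟩ := hX l
    exact ⟨j, c, by simp only [hc, Matrix.transpose_smul]⟩
  · exact square_first0 (IsAlg.rotate h) X hX k hk θ h0 h1

/-- The consequences of the inequality. -/
theorem consequences {n k : ℕ} {r : ℝ}
    (h : ∀ θ : ℝ, 0 ≤ θ → θ ≤ n → θ * n ^ 2 ≤ r + k * θ ^ 2) :
    (n : ℝ) ^ 3 ≤ r + k * n ^ 2 ∧ (n ≤ 2 * k → (n : ℝ) ^ 4 ≤ 4 * k * r) := by
  constructor
  · have h1 := h n (Nat.cast_nonneg _) le_rfl
    nlinarith [h1]
  · intro hk
    rcases Nat.eq_zero_or_pos k with hk0 | hk0
    · subst hk0
      have : n = 0 := by omega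
      subst this
      simp
    · have hk' : (0 : ℝ) < k := by exact_mod_cast hk0
      have h1 := h ((n : ℝ) ^ 2 / (2 * k)) (by positivity) (by
        rw [div_le_iff₀ (by positivity)]
        have : (n : ℝ) ≤ 2 * k := by exact_mod_cast hk
        nlinarith [(Nat.cast_nonneg n : (0 : ℝ) ≤ n)])
      have e1 : (n : ℝ) ^ 2 / (2 * k) * n ^ 2 = 2 * ((n : ℝ) ^ 4 / (4 * k)) := by
        field_simp
        ring
      have e2 : (k : ℝ) * ((n : ℝ) ^ 2 / (2 * k)) ^ 2 = (n : ℝ) ^ 4 / (4 * k) := by
        field_simp
        ring
      rw [e1, e2] at h1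
      have h2 : (n : ℝ) ^ 4 / (4 * k) ≤ r := by linarith
      rw [div_le_iff₀ (by positivity)] at h2
      linarith

section circuits

variable {m : ℕ}

/-- the circuit has the entries of the product of two generic `m × m` matrices among the
polynomials which it computes -/
def Computes (C : Circuit F (Vars m)) : Prop :=
  ∀ i j, ∃ k : Fin C.nodes, C.poly k = entry F m i j

/-- In all nonscalar products of the circuit which are not in `G` the `a`-parts of both factors are
multiples of members of the list `X`. -/
def AParts (C : Circuit F (Vars m)) (G : Finset (Fin C.nodes)) {N : ℕ}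
    (X : Fin N → Matrix (Fin m) (Fin m) F) : Prop :=
  ∀ g, C.IsNonscalar g → g ∉ G →
    (∃ (j : Fin N) (c : F), linA (C.poly (inp C g).1) = c • X j) ∧
    ∃ (j : Fin N) (c : F), linA (C.poly (inp C g).2) = c • X j

/-- In all nonscalar products of the circuit which are not in `G` the `b`-parts of both factors are
multiples of members of the list `X`. -/
def BParts (C : Circuit F (Vars m)) (G : Finset (Fin C.nodes)) {N : ℕ}
    (X : Fin N → Matrix (Fin m) (Fin m) F) : Prop :=
  ∀ g, C.IsNonscalar g → g ∉ G →
    (∃ (j : Fin N) (c : F), linB (C.poly (inp C g).1) = c • X j) ∧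
    ∃ (j : Fin N) (c : F), linB (C.poly (inp C g).2) = c • X j

theorem circuit_bound (C : Circuit F (Vars m)) (hC : Computes C) (G : Finset (Fin C.nodes)) {N : ℕ}
    (X : Fin N → Matrix (Fin m) (Fin m) F) (hX : AParts C G X ∨ BParts C G X) (k : ℕ)
    (hk : N ≤ finrank F (Submodule.span F (Set.range X)) + k) (θ : ℝ) (h0 : 0 ≤ θ)
    (h1 : θ ≤ m) :
    θ * m ^ 2 ≤ 2 * C.nonscalarCount + k * θ ^ 2 + 2 * G.card * θ := by
  classical
  obtain ⟨W, hW⟩ := exists_alg C hC
  let Z : Finset ({g : Fin C.nodes // C.IsNonscalar g} × Bool) :=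
    univ.filter fun l => l.1.1 ∈ G
  have hZ : Z.card ≤ 2 * G.card := by
    have e1 : Z.card ≤ (G ×ˢ (univ : Finset Bool)).card := by
      refine Finset.card_le_card_of_injOn (fun l => (l.1.1, l.2)) ?_ ?_
      · intro l hl
        rw [mem_coe, mem_filter] at hl
        simp [hl.2]
      · intro l _ l' _ hll
        simp only [Prod.mk.injEq] at hll
        exact Prod.ext (Subtype.ext hll.1) hll.2
    rw [card_product] at e1
    simp at e1
    omega
  have h2 := square_any hW Z X (by
    rcases hX with hX | hX
    · left
      intro l hl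
      have hlG : l.1.1 ∉ G := fun h3 => hl (mem_filter.2 ⟨mem_univ _, h3⟩)
      have h3 := hX l.1.1 l.1.2 hlG
      by_cases hb : l.2 = true
      · simp only [hb, if_true]
        exact h3.2
      · simp only [hb]
        exact h3.1
    · right
      left
      intro l hl
      have hlG : l.1.1 ∉ G := fun h3 => hl (mem_filter.2 ⟨mem_univ _, h3⟩)
      have h3 := hX l.1.1 l.1.2 hlG
      by_cases hb : l.2 = true
      · simp only [hb, if_true]
        exact h3.1
      · simp only [hb]
        exact h3.2) k (by rwa [Fintype.card_fin]) θ h0 h1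
  have e1 : Fintype.card ({g : Fin C.nodes // C.IsNonscalar g} × Bool) = 2 * C.nonscalarCount := by
    rw [Fintype.card_prod, Fintype.card_bool, Circuit.nonscalarCount, Nat.card_eq_fintype_card,
      mul_comm]
  rw [e1] at h2
  have e2 : (Z.card : ℝ) ≤ 2 * G.card := by exact_mod_cast hZ
  have e3 : (Z.card : ℝ) * θ ≤ 2 * G.card * θ := mul_le_mul_of_nonneg_right e2 h0
  have e4 : (0 : ℝ) ≤ Z.card := Nat.cast_nonneg _
  push_cast at h2
  linarith

theorem circuit_bound0 (C : Circuit F (Vars m)) (hC : Computes C) {N : ℕ}
    (X : Fin N → Matrix (Fin m) (Fin m) F) (hX : AParts C ∅ X ∨ BParts C ∅ X) (k : ℕ)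
    (hk : N ≤ m ^ 2 + k) (θ : ℝ) (h0 : 0 ≤ θ) (h1 : θ ≤ m) :
    θ * m ^ 2 ≤ 2 * C.nonscalarCount + k * θ ^ 2 := by
  classical
  obtain ⟨W, hW⟩ := exists_alg C hC
  have h2 := square_any0 hW X (by
    rcases hX with hX | hX
    · left
      intro l
      have h3 := hX l.1.1 l.1.2 (Finset.notMem_empty _)
      by_cases hb : l.2 = true
      · simp only [hb, if_true]
        exact h3.2
      · simp only [hb]
        exact h3.1
    · right
      left
      intro l
      have h3 := hX l.1.1 l.1.2 (Finset.notMem_empty _)
      by_cases hb : l.2 = true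
      · simp only [hb, if_true]
        exact h3.1
      · simp only [hb]
        exact h3.2) k (by rwa [Fintype.card_fin]) θ h0 h1
  have e1 : Fintype.card ({g : Fin C.nodes // C.IsNonscalar g} × Bool) = 2 * C.nonscalarCount := by
    rw [Fintype.card_prod, Fintype.card_bool, Circuit.nonscalarCount, Nat.card_eq_fintype_card,
      mul_comm]
  rw [e1] at h2
  push_cast at h2
  exact h2

end circuits

end Pool.Agent.R313.FF
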