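import Pool.Agent.R313.Cdf
import Pool.Agent.Y753.NL.Clt2

set_option autoImplicit false

/-! The Gaussian law of truncated moments, from asymptotics for the nearby moments. -/

namespace Pool.Agent.R313

open MeasureTheory Filter Topology ProbabilityTheory

/-- `Z ≥ 0` continuous with `∫_U^{U+H} Z^b = (1 + o(1)) H (log T)^(b²/4)` for all `b = b(T) → 2`; then the part
of the moment of order `β(T) → 2` from `Z ≤ (log T)^(β/2) exp (y √(log log T / 2))` has share `Φ(y)`. -/
theorem gauss_trunc (Z : ℝ → ℝ) (hZ : Continuous Z) (hZ0 : ∀ t, 0 ≤ Z t) (U H : ℝ → ℝ)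
    (hH : ∀ᶠ T : ℝ in atTop, 0 < H T)
    (hM : ∀ b : ℝ → ℝ, Tendsto b atTop (𝓝 2) →
      Tendsto (fun T : ℝ => (∫ t in (U T)..(U T + H T), Z t ^ b T) /
        (H T * Real.exp (b T ^ 2 / 4 * Real.log (Real.log T)))) atTop (𝓝 1))
    (β : ℝ → ℝ) (hβ : Tendsto β atTop (𝓝 2)) (y : ℝ) :
    Tendsto (fun T : ℝ => (∫ t in {t : ℝ | t ∈ Set.Icc (U T) (U T + H T) ∧ Z t ≤ Real.log T ^ (β T / 2) *
        Real.exp (y * Real.sqrt (Real.log (Real.log T) / 2))}, Z t ^ β T) /
        (H T * Real.exp (β T ^ 2 / 4 * Real.log (Real.log T)))) atTop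
      (𝓝 ((gaussianReal 0 1).real (Set.Iic y))) := by
  obtain ⟨D, hD⟩ : ∃ D : ℝ → ℝ, ∀ T, D T = H T * Real.exp (β T ^ 2 / 4 * Real.log (Real.log T)) :=
    ⟨_, fun _ => rfl⟩
  obtain ⟨σ, hσ⟩ : ∃ σ : ℝ → ℝ, ∀ T, σ T = Real.sqrt (Real.log (Real.log T) / 2) :=
    ⟨_, fun _ => rfl⟩
  obtain ⟨p, hp⟩ : ∃ p : ℝ → ℝ → ℝ, ∀ T t, p T t = Z t ^ β T / D T := ⟨_, fun _ _ => rfl⟩
  obtain ⟨Y, hY⟩ : ∃ Y : ℝ → ℝ → ℝ, ∀ T t, Y T t =
      (Real.log (Z t) - β T / 2 * Real.log (Real.log T)) / σ T := ⟨_, fun _ _ => rfl⟩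
  obtain ⟨ms, hms⟩ : ∃ ms : ℝ → Measure ℝ, ∀ T, ms T = volume.restrict (Set.Icc (U T) (U T + H T)) :=
    ⟨_, fun _ => rfl⟩
  have hLL : Tendsto (fun T : ℝ => Real.log (Real.log T)) atTop atTop :=
    Real.tendsto_log_atTop.comp Real.tendsto_log_atTop
  have hσT : Tendsto σ atTop atTop := by
    have h1 : Tendsto (fun T : ℝ => Real.sqrt (Real.log (Real.log T) / 2)) atTop atTop :=
      Real.tendsto_sqrt_atTop.comp (hLL.atTop_div_const (by norm_num))
    exact h1.congr fun T => (hσ T).symm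
  have hβ1 : ∀ᶠ T : ℝ in atTop, 1 < β T := hβ.eventually (lt_mem_nhds (by norm_num))
  have hpm : ∀ᶠ T : ℝ in atTop, Continuous (p T) ∧ ∀ t, 0 ≤ p T t := by
    filter_upwards [hβ1, hH] with T h1 hT
    have e : p T = fun t => Z t ^ β T / D T := funext (hp T)
    rw [e]
    have hD0 : 0 < D T := by rw [hD]; positivity
    exact ⟨(hZ.rpow_const fun t => Or.inr (by linarith)).div_const _,
      fun t => div_nonneg (Real.rpow_nonneg (hZ0 t) _) hD0.le⟩
  have hpc : ∀ᶠ T : ℝ in atTop, Measurable (p T) ∧ ∀ t, 0 ≤ p T t := by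
    filter_upwards [hpm] with T h
    exact ⟨h.1.measurable, h.2⟩
  have hpI : ∀ᶠ T : ℝ in atTop, Integrable (p T) (ms T) := by
    filter_upwards [hpm] with T h
    rw [hms]
    exact h.1.integrableOn_Icc
  have hYm : ∀ᶠ T : ℝ in atTop, Measurable (Y T) := by
    refine Eventually.of_forall fun T => ?_
    have e : Y T = fun t => (Real.log (Z t) - β T / 2 * Real.log (Real.log T)) / σ T :=
      funext (hY T)
    rw [e]
    exact ((Real.measurable_log.comp hZ.measurable).sub_const _).div_const _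
  -- the exponential tilt
  have hb : ∀ s : ℝ, Tendsto (fun T => β T + s / σ T) atTop (𝓝 2) := by
    intro s
    have h1 : Tendsto (fun T => s / σ T) atTop (𝓝 0) := hσT.const_div_atTop s
    simpa using hβ.add h1
  have hkey : ∀ s : ℝ, ∀ᶠ T : ℝ in atTop, ∀ t, p T t * Real.exp (s * Y T t) =
      Real.exp (-(s * (β T / 2 * Real.log (Real.log T)) / σ T)) / D T * Z t ^ (β T + s / σ T) := by
    intro s
    filter_upwards [hβ1, (hb s).eventually (lt_mem_nhds (show (1 : ℝ) < 2 by norm_num)),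
      hσT.eventually_gt_atTop 0] with T h1 h2 h3 t
    rw [hp, hY]
    rcases (hZ0 t).eq_or_lt with h0 | h0
    · rw [← h0, Real.zero_rpow (by linarith), Real.zero_rpow (by linarith)]
      simp
    · have e1 : s * ((Real.log (Z t) - β T / 2 * Real.log (Real.log T)) / σ T) =
          Real.log (Z t) * (s / σ T) + -(s * (β T / 2 * Real.log (Real.log T)) / σ T) := by
        field_simp
        ring
      rw [e1, Real.exp_add, ← Real.rpow_def_of_pos h0, Real.rpow_add h0]
      ring
  have hint : ∀ s : ℝ, ∀ᶠ T : ℝ in atTop,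
      Integrable (fun t => p T t * Real.exp (s * Y T t)) (ms T) := by
    intro s
    filter_upwards [hkey s, (hb s).eventually (lt_mem_nhds (show (1 : ℝ) < 2 by norm_num))]
      with T h1 h2
    have e : (fun t => p T t * Real.exp (s * Y T t)) = fun t =>
        Real.exp (-(s * (β T / 2 * Real.log (Real.log T)) / σ T)) / D T *
          Z t ^ (β T + s / σ T) := funext h1
    rw [e, hms]
    exact (continuous_const.mul (hZ.rpow_const fun t => Or.inr (by linarith))).integrableOn_Icc
  have hm : ∀ s : ℝ, Tendsto (fun T : ℝ => ∫ t, p T t * Real.exp (s * Y T t) ∂(ms T)) atTop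
      (𝓝 (1 * Real.exp (s ^ 2 / 2))) := by
    intro s
    have h1 := (hM _ (hb s)).mul_const (Real.exp (s ^ 2 / 2))
    refine h1.congr' ?_
    filter_upwards [hkey s, hσT.eventually_gt_atTop 0, hLL.eventually_gt_atTop 0,
      hH] with T h2 h3 h4 hT
    have e : (fun t => p T t * Real.exp (s * Y T t)) = fun t =>
        Real.exp (-(s * (β T / 2 * Real.log (Real.log T)) / σ T)) / D T *
          Z t ^ (β T + s / σ T) := funext h2
    rw [e, integral_const_mul, hms, integral_Icc_eq_integral_Ioc,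
      ← intervalIntegral.integral_of_le (by linarith)]
    have hs2 : σ T ^ 2 = Real.log (Real.log T) / 2 := by
      rw [hσ]; exact Real.sq_sqrt (by linarith)
    have hL2 : Real.log (Real.log T) = 2 * σ T ^ 2 := by rw [hs2]; ring
    have e3 : Real.exp ((β T + s / σ T) ^ 2 / 4 * Real.log (Real.log T)) =
        Real.exp (β T ^ 2 / 4 * Real.log (Real.log T)) *
          Real.exp (s * (β T / 2 * Real.log (Real.log T)) / σ T) * Real.exp (s ^ 2 / 2) := by
      rw [← Real.exp_add, ← Real.exp_add]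
      congr 1
      rw [hL2]
      field_simp
      ring
    rw [e3, hD, Real.exp_neg]
    have n1 := (Real.exp_pos (β T ^ 2 / 4 * Real.log (Real.log T))).ne'
    have n2 := (Real.exp_pos (s * (β T / 2 * Real.log (Real.log T)) / σ T)).ne'
    have n3 := (Real.exp_pos (s ^ 2 / 2)).ne'
    have n4 := hT.ne'
    field_simp
  have hF := fun F : BoundedContinuousFunction ℝ ℝ =>
    Pool.Agent.Y753.NL.clt2 hpc hYm hint one_pos hm F
  simp only [one_mul] at hF
  have : NullSingletonClass (gaussianReal 0 1) := nullSingletonClass_gaussianReal (by norm_num)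
  have hT := trunc (gaussianReal 0 1) hpc hpI hYm hF y
  refine hT.congr' ?_
  filter_upwards [hσT.eventually_gt_atTop 0, hLL.eventually_gt_atTop 0,
    Real.tendsto_log_atTop.eventually_gt_atTop 0, hβ1, hH] with T h1 h2 h3 h4 hT0
  have hsets : ∀ t, 0 < Z t → (Y T t ≤ y ↔ Z t ≤ Real.log T ^ (β T / 2) *
      Real.exp (y * Real.sqrt (Real.log (Real.log T) / 2))) := by
    intro t ht
    rw [hY, ← hσ, div_le_iff₀ h1, Real.rpow_def_of_pos h3, ← Real.exp_add,
      ← Real.log_le_iff_le_exp ht]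
    constructor <;> intro h <;> linarith
  have hD0 : 0 < D T := by rw [hD]; positivity
  have mA : MeasurableSet {t : ℝ | Y T t ≤ y} := by
    have e : Y T = fun t => (Real.log (Z t) - β T / 2 * Real.log (Real.log T)) / σ T :=
      funext (hY T)
    have : Measurable (Y T) := by
      rw [e]; exact ((Real.measurable_log.comp hZ.measurable).sub_const _).div_const _
    exact this measurableSet_Iic
  have mB : MeasurableSet {t : ℝ | Z t ≤ Real.log T ^ (β T / 2) *
      Real.exp (y * Real.sqrt (Real.log (Real.log T) / 2))} := hZ.measurable measurableSet_Iic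
  have e0 : {t : ℝ | t ∈ Set.Icc (U T) (U T + H T) ∧ Z t ≤ Real.log T ^ (β T / 2) *
      Real.exp (y * Real.sqrt (Real.log (Real.log T) / 2))} = Set.Icc (U T) (U T + H T) ∩
      {t : ℝ | Z t ≤ Real.log T ^ (β T / 2) *
      Real.exp (y * Real.sqrt (Real.log (Real.log T) / 2))} := rfl
  rw [← hD, ← integral_div, e0]
  have e1 : (fun t => Z t ^ β T / D T) = p T := by funext t; rw [hp]
  rw [e1, ← setIntegral_indicator mB, ← integral_indicator mA, hms]
  refine integral_congr_ae (Eventually.of_forall fun t => ?_)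
  show _ = _
  rcases (hZ0 t).eq_or_lt with h0 | h0
  · have hpz : p T t = 0 := by
      rw [hp, ← h0, Real.zero_rpow (by linarith), zero_div]
    by_cases ha : t ∈ {t : ℝ | Y T t ≤ y} <;>
    by_cases hb : t ∈ {t : ℝ | Z t ≤ Real.log T ^ (β T / 2) *
      Real.exp (y * Real.sqrt (Real.log (Real.log T) / 2))} <;>
    simp only [Set.indicator_of_mem, Set.indicator_of_notMem, ha, hb, hpz, not_false_eq_true]
  · have hiff : t ∈ {t : ℝ | Y T t ≤ y} ↔
        t ∈ {t : ℝ | Z t ≤ Real.log T ^ (β T / 2) *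
      Real.exp (y * Real.sqrt (Real.log (Real.log T) / 2))} := hsets t h0
    by_cases ha : t ∈ {t : ℝ | Y T t ≤ y}
    · rw [Set.indicator_of_mem ha, Set.indicator_of_mem (hiff.1 ha)]
    · rw [Set.indicator_of_notMem ha, Set.indicator_of_notMem (fun h => ha (hiff.2 h))]

end Pool.Agent.R313
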