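import Pool.Agent.R313.GaussTrunc

set_option autoImplicit false

/-! Convergence of all moments of the logarithm under the weights `Z ^ β`, from asymptotics for the nearby moments. -/

namespace Pool.Agent.R313

open MeasureTheory Filter Topology ProbabilityTheory

/-- the clipped identity -/
noncomputable def clip (R x : ℝ) : ℝ := max (-R) (min R x)

lemma clip_abs_le {R : ℝ} (hR : 0 ≤ R) (x : ℝ) : |clip R x| ≤ R := by
  unfold clip
  rw [abs_le]
  exact ⟨le_max_left _ _, max_le (by linarith) (min_le_left _ _)⟩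

lemma pow_clip {R : ℝ} (hR : 0 ≤ R) (n : ℕ) (x : ℝ) :
    |x ^ n - clip R x ^ n| ≤ (n.factorial : ℝ) * Real.exp (-R) * (Real.exp (2 * x) + Real.exp (-2 * x)) := by
  have hn : (0 : ℝ) < (n.factorial : ℝ) := by exact_mod_cast n.factorial_pos
  rcases le_or_gt |x| R with h | h
  · have e : clip R x = x := by
      unfold clip
      obtain ⟨h1, h2⟩ := abs_le.1 h
      rw [min_eq_right h2, max_eq_right h1]
    rw [e, sub_self, abs_zero]
    positivity
  · -- the clipped value has the same sign and smaller modulus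
    have h0 : |x ^ n - clip R x ^ n| ≤ |x| ^ n := by
      rcases le_or_gt 0 x with hx | hx
      · rw [abs_of_nonneg hx] at h
        have e : clip R x = R := by
          unfold clip
          rw [min_eq_left h.le, max_eq_right (by linarith)]
        rw [e, abs_of_nonneg hx, abs_of_nonneg (sub_nonneg.2 (pow_le_pow_left₀ hR h.le n))]
        have := pow_nonneg hR n
        linarith
      · rw [abs_of_neg hx] at h
        have e : clip R x = -R := by
          unfold clip
          rw [min_eq_right (by linarith), max_eq_left (by linarith)]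
        have e2 : x ^ n - (-R) ^ n = (-1) ^ n * ((-x) ^ n - R ^ n) := by
          rw [mul_sub, ← mul_pow, ← mul_pow]
          congr 2 <;> ring
        rw [e, e2, abs_mul, abs_pow, abs_neg, abs_one, one_pow, one_mul,
          abs_of_nonneg (sub_nonneg.2 (pow_le_pow_left₀ hR h.le n)), abs_of_neg hx]
        have := pow_nonneg hR n
        linarith
    have h1 : |x| ^ n ≤ (n.factorial : ℝ) * Real.exp |x| := by
      have := Real.pow_div_factorial_le_exp |x| (abs_nonneg x) n
      rw [div_le_iff₀ hn] at this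
      linarith
    have h2 : Real.exp |x| ≤ Real.exp (-R) * Real.exp (2 * |x|) := by
      rw [← Real.exp_add]
      exact Real.exp_le_exp.2 (by linarith)
    have h3 : Real.exp (2 * |x|) ≤ Real.exp (2 * x) + Real.exp (-2 * x) := by
      rcases le_or_gt 0 x with hx | hx
      · rw [abs_of_nonneg hx]
        linarith [Real.exp_pos (-2 * x)]
      · rw [abs_of_neg hx]
        have : 2 * -x = -2 * x := by ring
        rw [this]
        linarith [Real.exp_pos (2 * x)]
    calc |x ^ n - clip R x ^ n| ≤ |x| ^ n := h0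
      _ ≤ (n.factorial : ℝ) * Real.exp |x| := h1
      _ ≤ (n.factorial : ℝ) * (Real.exp (-R) * Real.exp (2 * |x|)) := by gcongr
      _ ≤ (n.factorial : ℝ) * (Real.exp (-R) * (Real.exp (2 * x) + Real.exp (-2 * x))) := by gcongr
      _ = _ := by ring

/-- the clipped power as a bounded continuous function -/
noncomputable def clipPow (R : ℝ) (n : ℕ) (hR : 0 ≤ R) : BoundedContinuousFunction ℝ ℝ :=
  BoundedContinuousFunction.ofNormedAddCommGroup (fun x => clip R x ^ n)
    (by unfold clip; fun_prop) (R ^ n) (fun x => by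
      rw [Real.norm_eq_abs, abs_pow]
      exact pow_le_pow_left₀ (abs_nonneg _) (clip_abs_le hR x) n)

lemma clipPow_apply (R : ℝ) (n : ℕ) (hR : 0 ≤ R) (x : ℝ) : clipPow R n hR x = clip R x ^ n := rfl

lemma gauss_int (n : ℕ) : Integrable (fun x : ℝ => x ^ n) (gaussianReal 0 1) := by
  have h2 : Integrable (fun x : ℝ => Real.exp (1 * x)) (gaussianReal 0 1) :=
    integrable_exp_mul_gaussianReal 1
  have h3 : Integrable (fun x : ℝ => Real.exp (-1 * x)) (gaussianReal 0 1) :=
    integrable_exp_mul_gaussianReal (-1)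
  have hn : (0 : ℝ) < (n.factorial : ℝ) := by exact_mod_cast n.factorial_pos
  refine Integrable.mono' ((h2.add h3).const_mul (n.factorial : ℝ))
    (by fun_prop) (Eventually.of_forall fun x => ?_)
  rw [Real.norm_eq_abs, abs_pow]
  have h1 : |x| ^ n ≤ (n.factorial : ℝ) * Real.exp |x| := by
    have := Real.pow_div_factorial_le_exp |x| (abs_nonneg x) n
    rw [div_le_iff₀ hn] at this
    linarith
  refine h1.trans (mul_le_mul_of_nonneg_left ?_ hn.le)
  simp only [Pi.add_apply]
  rcases le_or_gt 0 x with hx | hx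
  · rw [abs_of_nonneg hx, one_mul]
    linarith [Real.exp_pos (-1 * x)]
  · rw [abs_of_neg hx, neg_one_mul]
    linarith [Real.exp_pos (1 * x)]

/-- convergence of the moments -/
theorem mom_clt {p Y : ℝ → ℝ → ℝ} {ms : ℝ → Measure ℝ}
    (hpc : ∀ᶠ T : ℝ in atTop, Measurable (p T) ∧ ∀ t, 0 ≤ p T t)
    (hYm : ∀ᶠ T : ℝ in atTop, Measurable (Y T))
    (hint : ∀ s : ℝ, ∀ᶠ T : ℝ in atTop, Integrable (fun t => p T t * Real.exp (s * Y T t)) (ms T))
    (hm : ∀ s : ℝ, Tendsto (fun T : ℝ => ∫ t, p T t * Real.exp (s * Y T t) ∂(ms T)) atTop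
      (𝓝 (1 * Real.exp (s ^ 2 / 2))))
    (hF : ∀ F : BoundedContinuousFunction ℝ ℝ,
      Tendsto (fun T : ℝ => ∫ t, p T t * F (Y T t) ∂(ms T)) atTop (𝓝 (∫ x, F x ∂(gaussianReal 0 1))))
    (n : ℕ) :
    (∀ᶠ T : ℝ in atTop, Integrable (fun t => p T t * Y T t ^ n) (ms T)) ∧
    Tendsto (fun T : ℝ => ∫ t, p T t * Y T t ^ n ∂(ms T)) atTop
      (𝓝 (∫ x, x ^ n ∂(gaussianReal 0 1))) := by
  have hn : (0 : ℝ) < (n.factorial : ℝ) := by exact_mod_cast n.factorial_pos
  have hI : ∀ᶠ T : ℝ in atTop, Integrable (fun t => p T t * Y T t ^ n) (ms T) := by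
    filter_upwards [hpc, hYm, hint 2, hint (-2)] with T h1 h2 h3 h4
    refine Integrable.mono' ((h3.add h4).const_mul (n.factorial : ℝ))
      (h1.1.mul (h2.pow_const n)).aestronglyMeasurable (Eventually.of_forall fun t => ?_)
    have h5 := pow_clip (le_refl (0 : ℝ)) n (Y T t)
    rw [Real.norm_eq_abs, abs_mul, abs_of_nonneg (h1.2 t)]
    simp only [Pi.add_apply]
    have h6 : |Y T t ^ n| ≤ (n.factorial : ℝ) * (Real.exp (2 * Y T t) + Real.exp (-2 * Y T t)) := by
      have h7 : |Y T t| ^ n ≤ (n.factorial : ℝ) * Real.exp |Y T t| := by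
        have := Real.pow_div_factorial_le_exp |Y T t| (abs_nonneg _) n
        rw [div_le_iff₀ hn] at this
        linarith
      rw [abs_pow]
      refine h7.trans (mul_le_mul_of_nonneg_left ?_ hn.le)
      rcases le_or_gt 0 (Y T t) with hx | hx
      · rw [abs_of_nonneg hx]
        have : Real.exp (Y T t) ≤ Real.exp (2 * Y T t) := Real.exp_le_exp.2 (by linarith)
        linarith [Real.exp_pos (-2 * Y T t)]
      · rw [abs_of_neg hx]
        have : Real.exp (-Y T t) ≤ Real.exp (-2 * Y T t) := Real.exp_le_exp.2 (by linarith)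
        linarith [Real.exp_pos (2 * Y T t)]
    calc p T t * |Y T t ^ n| ≤ p T t * ((n.factorial : ℝ) *
          (Real.exp (2 * Y T t) + Real.exp (-2 * Y T t))) := mul_le_mul_of_nonneg_left h6 (h1.2 t)
      _ = _ := by ring
  refine ⟨hI, ?_⟩
  rw [Metric.tendsto_nhds]
  intro ε hε
  -- the tail constant
  obtain ⟨M, hM, hMd⟩ : ∃ M : ℝ, 0 < M ∧ M = (n.factorial : ℝ) * (2 * Real.exp 2 + 1) := ⟨_, by positivity, rfl⟩
  have hg2 : Integrable (fun x : ℝ => Real.exp (2 * x) + Real.exp (-2 * x)) (gaussianReal 0 1) :=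
    (integrable_exp_mul_gaussianReal 2).add (integrable_exp_mul_gaussianReal (-2))
  set G := ∫ x, (Real.exp (2 * x) + Real.exp (-2 * x)) ∂(gaussianReal 0 1) with hG
  have hG0 : 0 ≤ G := integral_nonneg fun x => by positivity
  obtain ⟨R, hR0, hR1, hR2⟩ : ∃ R : ℝ, 0 ≤ R ∧ M * Real.exp (-R) < ε / 3 ∧
      (n.factorial : ℝ) * G * Real.exp (-R) < ε / 3 := by
    have h1 : Tendsto (fun R : ℝ => M * Real.exp (-R)) atTop (𝓝 (M * 0)) :=
      (Real.tendsto_exp_neg_atTop_nhds_zero).const_mul M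
    have h2 : Tendsto (fun R : ℝ => (n.factorial : ℝ) * G * Real.exp (-R)) atTop
        (𝓝 ((n.factorial : ℝ) * G * 0)) :=
      (Real.tendsto_exp_neg_atTop_nhds_zero).const_mul _
    rw [mul_zero] at h1 h2
    obtain ⟨R, hR⟩ := ((eventually_ge_atTop 0).and ((h1.eventually (gt_mem_nhds (show 0 < ε / 3 by positivity))).and
      (h2.eventually (gt_mem_nhds (show 0 < ε / 3 by positivity))))).exists
    exact ⟨R, hR.1, hR.2.1, hR.2.2⟩
  have hFR := hF (clipPow R n hR0)
  rw [Metric.tendsto_nhds] at hFR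
  have hm2 : ∀ᶠ T : ℝ in atTop, ∫ t, p T t * Real.exp (2 * Y T t) ∂(ms T) < Real.exp 2 + 1 / 2 := by
    have := (hm 2).eventually (gt_mem_nhds (show 1 * Real.exp ((2 : ℝ) ^ 2 / 2) < Real.exp 2 + 1 / 2 by
      have : ((2 : ℝ) ^ 2 / 2) = 2 := by norm_num
      rw [this]; linarith))
    exact this
  have hm3 : ∀ᶠ T : ℝ in atTop, ∫ t, p T t * Real.exp (-2 * Y T t) ∂(ms T) < Real.exp 2 + 1 / 2 := by
    have := (hm (-2)).eventually (gt_mem_nhds (show 1 * Real.exp ((-2 : ℝ) ^ 2 / 2) < Real.exp 2 + 1 / 2 by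
      have : ((-2 : ℝ) ^ 2 / 2) = 2 := by norm_num
      rw [this]; linarith))
    exact this
  filter_upwards [hFR (ε / 3) (by positivity), hm2, hm3, hI, hpc, hYm, hint 2, hint (-2), hint 0]
    with T h1 h2 h3 h4 h5 h6 h7 h8 h9
  rw [Real.dist_eq] at h1 ⊢
  have hpI : Integrable (fun t => p T t * clipPow R n hR0 (Y T t)) (ms T) := by
    have h9' : Integrable (fun t => R ^ n * (p T t * Real.exp (0 * Y T t))) (ms T) := h9.const_mul _
    refine Integrable.mono' h9' ?_ (Eventually.of_forall fun t => ?_)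
    · exact (h5.1.mul ((clipPow R n hR0).continuous.measurable.comp h6)).aestronglyMeasurable
    · rw [Real.norm_eq_abs, abs_mul, abs_of_nonneg (h5.2 t), zero_mul, Real.exp_zero, mul_one, mul_comm]
      refine mul_le_mul_of_nonneg_right ?_ (h5.2 t)
      rw [clipPow_apply, abs_pow]
      exact pow_le_pow_left₀ (abs_nonneg _) (clip_abs_le hR0 _) n
  have a1 : |(∫ t, p T t * Y T t ^ n ∂(ms T)) - ∫ t, p T t * clipPow R n hR0 (Y T t) ∂(ms T)| ≤
      M * Real.exp (-R) := by
    rw [← integral_sub h4 hpI]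
    have b1 : |∫ t, (p T t * Y T t ^ n - p T t * clipPow R n hR0 (Y T t)) ∂(ms T)| ≤
        ∫ t, (n.factorial : ℝ) * Real.exp (-R) *
          (p T t * Real.exp (2 * Y T t) + p T t * Real.exp (-2 * Y T t)) ∂(ms T) := by
      refine (abs_integral_le_integral_abs).trans (integral_mono_of_nonneg
        (Eventually.of_forall fun t => abs_nonneg _) ((h7.add h8).const_mul _)
        (Eventually.of_forall fun t => ?_))
      show |_| ≤ _
      rw [← mul_sub, abs_mul, abs_of_nonneg (h5.2 t), clipPow_apply]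
      calc p T t * |Y T t ^ n - clip R (Y T t) ^ n| ≤ p T t * ((n.factorial : ℝ) * Real.exp (-R) *
            (Real.exp (2 * Y T t) + Real.exp (-2 * Y T t))) :=
            mul_le_mul_of_nonneg_left (pow_clip hR0 n _) (h5.2 t)
        _ = _ := by ring
    refine b1.trans ?_
    rw [integral_const_mul, integral_add h7 h8]
    have b2 : (∫ t, p T t * Real.exp (2 * Y T t) ∂(ms T)) + ∫ t, p T t * Real.exp (-2 * Y T t) ∂(ms T) ≤
        2 * Real.exp 2 + 1 := by linarith
    calc (n.factorial : ℝ) * Real.exp (-R) * ((∫ t, p T t * Real.exp (2 * Y T t) ∂(ms T)) +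
          ∫ t, p T t * Real.exp (-2 * Y T t) ∂(ms T)) ≤
          (n.factorial : ℝ) * Real.exp (-R) * (2 * Real.exp 2 + 1) :=
          mul_le_mul_of_nonneg_left b2 (by positivity)
      _ = _ := by rw [hMd]; ring
  have a2 : |(∫ x, clipPow R n hR0 x ∂(gaussianReal 0 1)) - ∫ x, x ^ n ∂(gaussianReal 0 1)| ≤
      (n.factorial : ℝ) * G * Real.exp (-R) := by
    rw [← integral_sub ((clipPow R n hR0).integrable _) (gauss_int n)]
    refine (abs_integral_le_integral_abs).trans ?_
    have b1 : ∫ x, |clipPow R n hR0 x - x ^ n| ∂(gaussianReal 0 1) ≤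
        ∫ x, (n.factorial : ℝ) * Real.exp (-R) * (Real.exp (2 * x) + Real.exp (-2 * x)) ∂(gaussianReal 0 1) := by
      refine integral_mono_of_nonneg (Eventually.of_forall fun t => abs_nonneg _) (hg2.const_mul _)
        (Eventually.of_forall fun t => ?_)
      show |_| ≤ _
      rw [abs_sub_comm, clipPow_apply]
      exact pow_clip hR0 n t
    refine b1.trans (le_of_eq ?_)
    rw [integral_const_mul, ← hG]
    ring
  calc |(∫ t, p T t * Y T t ^ n ∂(ms T)) - ∫ x, x ^ n ∂(gaussianReal 0 1)| =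
        |((∫ t, p T t * Y T t ^ n ∂(ms T)) - ∫ t, p T t * clipPow R n hR0 (Y T t) ∂(ms T)) +
        ((∫ t, p T t * clipPow R n hR0 (Y T t) ∂(ms T)) - ∫ x, clipPow R n hR0 x ∂(gaussianReal 0 1)) +
        ((∫ x, clipPow R n hR0 x ∂(gaussianReal 0 1)) - ∫ x, x ^ n ∂(gaussianReal 0 1))| := by
        congr 1; ring
    _ ≤ _ := abs_add_three _ _ _
    _ < ε := by linarith

/-- `Z ≥ 0` continuous with `∫_U^{U+H} Z^b = (1 + o(1)) H (log T)^(b²/4)` for all `b = b(T) → 2`; then under the
weight `Z^β(T)`, `β(T) → 2`, all moments of `(log Z - (β/2) log log T) / √(½ log log T)` tend to the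
moments of the standard Gaussian law. -/
theorem log_mom (Z : ℝ → ℝ) (hZ : Continuous Z) (hZ0 : ∀ t, 0 ≤ Z t) (U H : ℝ → ℝ)
    (hH : ∀ᶠ T : ℝ in atTop, 0 < H T)
    (hM : ∀ b : ℝ → ℝ, Tendsto b atTop (𝓝 2) →
      Tendsto (fun T : ℝ => (∫ t in (U T)..(U T + H T), Z t ^ b T) /
        (H T * Real.exp (b T ^ 2 / 4 * Real.log (Real.log T)))) atTop (𝓝 1))
    (β : ℝ → ℝ) (hβ : Tendsto β atTop (𝓝 2)) (n : ℕ) :
    Tendsto (fun T : ℝ => (∫ t in (U T)..(U T + H T), Z t ^ β T *
        ((Real.log (Z t) - β T / 2 * Real.log (Real.log T)) / Real.sqrt (Real.log (Real.log T) / 2)) ^ n) /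
        (H T * Real.exp (β T ^ 2 / 4 * Real.log (Real.log T)))) atTop
      (𝓝 (∫ x, x ^ n ∂(gaussianReal 0 1))) := by
  obtain ⟨D, hD⟩ : ∃ D : ℝ → ℝ, ∀ T, D T = H T * Real.exp (β T ^ 2 / 4 * Real.log (Real.log T)) :=
    ⟨_, fun _ => rfl⟩
  obtain ⟨σ, hσ⟩ : ∃ σ : ℝ → ℝ, ∀ T, σ T = Real.sqrt (Real.log (Real.log T) / 2) :=
    ⟨_, fun _ => rfl⟩
  obtain ⟨p, hp⟩ : ∃ p : ℝ → ℝ → ℝ, ∀ T t, p T t = Z t ^ β T / D T := ⟨_, fun _ _ => rfl⟩
  obtain ⟨Y, hY⟩ : ∃ Y : ℝ → ℝ → ℝ, ∀ T t, Y T t =
      (Real.log (Z t) - β T / 2 * Real.log (Real.log T)) / σ T := ⟨_, fun _ _ => rfl⟩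
  obtain ⟨ms, hms⟩ : ∃ ms : ℝ → Measure ℝ, ∀ T, ms T = volume.restrict (Set.Icc (U T) (U T + H T)) :=
    ⟨_, fun _ => rfl⟩
  have hLL : Tendsto (fun T : ℝ => Real.log (Real.log T)) atTop atTop :=
    Real.tendsto_log_atTop.comp Real.tendsto_log_atTop
  have hσT : Tendsto σ atTop atTop := by
    have h1 : Tendsto (fun T : ℝ => Real.sqrt (Real.log (Real.log T) / 2)) atTop atTop :=
      Real.tendsto_sqrt_atTop.comp (hLL.atTop_div_const (by norm_num))
    exact h1.congr fun T => (hσ T).symm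
  have hβ1 : ∀ᶠ T : ℝ in atTop, 1 < β T := hβ.eventually (lt_mem_nhds (by norm_num))
  have hpm : ∀ᶠ T : ℝ in atTop, Continuous (p T) ∧ ∀ t, 0 ≤ p T t := by
    filter_upwards [hβ1, hH] with T h1 hT
    have e : p T = fun t => Z t ^ β T / D T := funext (hp T)
    rw [e]
    have hD0 : 0 < D T := by rw [hD]; positivity
    exact ⟨(hZ.rpow_const fun t => Or.inr (by linarith)).div_const _,
      fun t => div_nonneg (Real.rpow_nonneg (hZ0 t) _) hD0.le⟩
  have hpc : ∀ᶠ T : ℝ in atTop, Measurable (p T) ∧ ∀ t, 0 ≤ p T t := by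
    filter_upwards [hpm] with T h
    exact ⟨h.1.measurable, h.2⟩
  have hYm : ∀ᶠ T : ℝ in atTop, Measurable (Y T) := by
    refine Eventually.of_forall fun T => ?_
    have e : Y T = fun t => (Real.log (Z t) - β T / 2 * Real.log (Real.log T)) / σ T :=
      funext (hY T)
    rw [e]
    exact ((Real.measurable_log.comp hZ.measurable).sub_const _).div_const _
  have hb : ∀ s : ℝ, Tendsto (fun T => β T + s / σ T) atTop (𝓝 2) := by
    intro s
    have h1 : Tendsto (fun T => s / σ T) atTop (𝓝 0) := hσT.const_div_atTop s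
    simpa using hβ.add h1
  have hkey : ∀ s : ℝ, ∀ᶠ T : ℝ in atTop, ∀ t, p T t * Real.exp (s * Y T t) =
      Real.exp (-(s * (β T / 2 * Real.log (Real.log T)) / σ T)) / D T * Z t ^ (β T + s / σ T) := by
    intro s
    filter_upwards [hβ1, (hb s).eventually (lt_mem_nhds (show (1 : ℝ) < 2 by norm_num)),
      hσT.eventually_gt_atTop 0] with T h1 h2 h3 t
    rw [hp, hY]
    rcases (hZ0 t).eq_or_lt with h0 | h0
    · rw [← h0, Real.zero_rpow (by linarith), Real.zero_rpow (by linarith)]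
      simp
    · have e1 : s * ((Real.log (Z t) - β T / 2 * Real.log (Real.log T)) / σ T) =
          Real.log (Z t) * (s / σ T) + -(s * (β T / 2 * Real.log (Real.log T)) / σ T) := by
        field_simp
        ring
      rw [e1, Real.exp_add, ← Real.rpow_def_of_pos h0, Real.rpow_add h0]
      ring
  have hint : ∀ s : ℝ, ∀ᶠ T : ℝ in atTop,
      Integrable (fun t => p T t * Real.exp (s * Y T t)) (ms T) := by
    intro s
    filter_upwards [hkey s, (hb s).eventually (lt_mem_nhds (show (1 : ℝ) < 2 by norm_num))]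
      with T h1 h2
    have e : (fun t => p T t * Real.exp (s * Y T t)) = fun t =>
        Real.exp (-(s * (β T / 2 * Real.log (Real.log T)) / σ T)) / D T *
          Z t ^ (β T + s / σ T) := funext h1
    rw [e, hms]
    exact (continuous_const.mul (hZ.rpow_const fun t => Or.inr (by linarith))).integrableOn_Icc
  have hm : ∀ s : ℝ, Tendsto (fun T : ℝ => ∫ t, p T t * Real.exp (s * Y T t) ∂(ms T)) atTop
      (𝓝 (1 * Real.exp (s ^ 2 / 2))) := by
    intro s
    have h1 := (hM _ (hb s)).mul_const (Real.exp (s ^ 2 / 2))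
    refine h1.congr' ?_
    filter_upwards [hkey s, hσT.eventually_gt_atTop 0, hLL.eventually_gt_atTop 0,
      hH] with T h2 h3 h4 hT
    have e : (fun t => p T t * Real.exp (s * Y T t)) = fun t =>
        Real.exp (-(s * (β T / 2 * Real.log (Real.log T)) / σ T)) / D T *
          Z t ^ (β T + s / σ T) := funext h2
    rw [e, integral_const_mul, hms, integral_Icc_eq_integral_Ioc,
      ← intervalIntegral.integral_of_le (by linarith)]
    have hs2 : σ T ^ 2 = Real.log (Real.log T) / 2 := by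
      rw [hσ]; exact Real.sq_sqrt (by linarith)
    have hL2 : Real.log (Real.log T) = 2 * σ T ^ 2 := by rw [hs2]; ring
    have e3 : Real.exp ((β T + s / σ T) ^ 2 / 4 * Real.log (Real.log T)) =
        Real.exp (β T ^ 2 / 4 * Real.log (Real.log T)) *
          Real.exp (s * (β T / 2 * Real.log (Real.log T)) / σ T) * Real.exp (s ^ 2 / 2) := by
      rw [← Real.exp_add, ← Real.exp_add]
      congr 1
      rw [hL2]
      field_simp
      ring
    rw [e3, hD, Real.exp_neg]
    have n1 := (Real.exp_pos (β T ^ 2 / 4 * Real.log (Real.log T))).ne'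
    have n2 := (Real.exp_pos (s * (β T / 2 * Real.log (Real.log T)) / σ T)).ne'
    have n3 := (Real.exp_pos (s ^ 2 / 2)).ne'
    have n4 := hT.ne'
    field_simp
  have hF := fun F : BoundedContinuousFunction ℝ ℝ =>
    Pool.Agent.Y753.NL.clt2 hpc hYm hint one_pos hm F
  simp only [one_mul] at hF
  have hmain := (mom_clt hpc hYm hint hm hF n).2
  refine hmain.congr' ?_
  filter_upwards [hH] with T hT
  rw [hms, integral_Icc_eq_integral_Ioc, ← intervalIntegral.integral_of_le (by linarith), ← hD,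
    ← intervalIntegral.integral_div]
  refine intervalIntegral.integral_congr fun t _ => ?_
  show p T t * Y T t ^ n = _
  rw [hp, hY, hσ]
  ring

end Pool.Agent.R313
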