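import Pool.Agent.TH73.N4_SHT
import Pool.Agent.TH806.Tau

set_option autoImplicit false

/-!
Two-sided sharp asymptotics for the moments of order near two in the intervals `[T, T + H]`
(the passage from the windows is adapted from `Pool.Agent.TH73.N4_SHT`).
-/

namespace Pool.Agent.R313.NT

open Finset Filter Topology MeasureTheory Complex MonoidAlgebra
open Pool.Agent.W184.NZ Pool.Agent.TH806 Pool.Agent.TH806.N4
open Pool.Agent.H306R2.SM (om cl Yf)
open Pool.Agent.H262R4.TM (Rng Ck)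
open Pool.Agent.H965R2.SMT1 (Ph Ph_nonneg Ph_le_one Ph_chernoff om_nonneg gam gam_pos tail_bound)
open Pool.Agent.TH73.N4_FIN Pool.Agent.TH73.N4_SHT

noncomputable section

/-- the windows -/
theorem win2 {κ : ℝ} (hκ : 0 < κ) (hκ1 : κ ≤ 1 / 10) : ∃ δ : ℝ, 0 < δ ∧ δ ≤ 1 / 40 ∧
    ∀ᶠ T : ℝ in atTop, ∀ x ∈ Set.Icc (T / 2) (8 * T), ∀ β : ℝ, |β - 2| ≤ δ →
      W β (kk T) x ≤ (1 + κ) * Real.log T ^ (β ^ 2 / 4) ∧
      (1 - κ) * Real.log T ^ (β ^ 2 / 4) ≤ W β (kk T) x := by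
  set e := κ / 10 with he
  have he0 : 0 < e := by positivity
  have he1 : e ≤ 1 / 100 := by rw [he]; linarith
  obtain ⟨δ, hδ, hδ1, hW⟩ := win_mom he0
  obtain ⟨T0, hT0⟩ := eventually_atTop.1 hW
  refine ⟨δ, hδ, hδ1, ?_⟩
  filter_upwards [kk_ev, e9 (show (0:ℝ) < 1 by norm_num), eventually_ge_atTop (2 * T0), eventually_ge_atTop (1:ℝ),
    Real.tendsto_log_atTop.eventually_ge_atTop 1,
    Real.tendsto_log_atTop.eventually_ge_atTop (Real.log 8 / e),
    Real.tendsto_log_atTop.eventually_ge_atTop (Real.log 2 / e)] with T hk h9 hTT hT1 hL1 hL8 hL2 x hx β hβ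
  obtain ⟨hβ1, hβ3, hm0, hm2⟩ := beta_range (hβ.trans hδ1)
  have hT : 0 < T := by linarith
  have hL0 : 0 < Real.log T := by linarith
  rw [div_le_iff₀ he0] at hL8 hL2
  have hx0 : 0 < x := lt_of_lt_of_le (by positivity) hx.1
  obtain ⟨hr, l1, l2⟩ := hk.2.2 x ⟨by linarith [hx.1], hx.2⟩
  have a1 := hT0 x (by linarith [hx.1]) (kk T) hr β hβ
  change |W β (kk T) x - Real.log x ^ (β ^ 2 / 4)| ≤ e * Real.log x ^ (β ^ 2 / 4) at a1
  have hlx : 0 < Real.log x := by linarith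
  have hlu : Real.log x ≤ (1 + e) * Real.log T := by
    have := Real.log_le_log hx0 hx.2
    rw [Real.log_mul (by norm_num) hT.ne'] at this
    linarith
  have hll : (1 - e) * Real.log T ≤ Real.log x := by
    have := Real.log_le_log (by positivity) hx.1
    rw [Real.log_div hT.ne' (by norm_num)] at this
    linarith
  have hLp : 0 ≤ Real.log T ^ (β ^ 2 / 4) := Real.rpow_nonneg hL0.le _
  have pu : Real.log x ^ (β ^ 2 / 4) ≤ (1 + e) ^ 2 * Real.log T ^ (β ^ 2 / 4) := by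
    calc Real.log x ^ (β ^ 2 / 4) ≤ ((1 + e) * Real.log T) ^ (β ^ 2 / 4) :=
          Real.rpow_le_rpow hlx.le hlu hm0
      _ = (1 + e) ^ (β ^ 2 / 4) * Real.log T ^ (β ^ 2 / 4) := Real.mul_rpow (by positivity) hL0.le
      _ ≤ (1 + e) ^ 2 * Real.log T ^ (β ^ 2 / 4) := by
          refine mul_le_mul_of_nonneg_right ?_ hLp
          have : (1 + e) ^ 2 = (1 + e) ^ (2:ℝ) := by rw [← Real.rpow_natCast]; norm_num
          rw [this]
          exact Real.rpow_le_rpow_of_exponent_le (by linarith) hm2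
  have pl : (1 - e) ^ 2 * Real.log T ^ (β ^ 2 / 4) ≤ Real.log x ^ (β ^ 2 / 4) := by
    calc (1 - e) ^ 2 * Real.log T ^ (β ^ 2 / 4) ≤ (1 - e) ^ (β ^ 2 / 4) * Real.log T ^ (β ^ 2 / 4) := by
          refine mul_le_mul_of_nonneg_right ?_ hLp
          have : (1 - e) ^ 2 = (1 - e) ^ (2:ℝ) := by rw [← Real.rpow_natCast]; norm_num
          rw [this]
          exact Real.rpow_le_rpow_of_exponent_ge (by linarith) (by linarith) hm2
      _ = ((1 - e) * Real.log T) ^ (β ^ 2 / 4) := (Real.mul_rpow (by linarith) hL0.le).symm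
      _ ≤ _ := Real.rpow_le_rpow (mul_nonneg (by linarith) hL0.le) hll hm0
  obtain ⟨b1, b2⟩ := abs_le.1 a1
  constructor
  · calc W β (kk T) x ≤ (1 + e) * Real.log x ^ (β ^ 2 / 4) := by linarith
      _ ≤ (1 + e) * ((1 + e) ^ 2 * Real.log T ^ (β ^ 2 / 4)) :=
          mul_le_mul_of_nonneg_left pu (by linarith)
      _ = (1 + e) ^ 3 * Real.log T ^ (β ^ 2 / 4) := by ring
      _ ≤ _ := by
          refine mul_le_mul_of_nonneg_right ?_ hLp
          have : (1 + e) ^ 3 ≤ 1 + 4 * e := by nlinarith [mul_pos he0 he0]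
          linarith
  · have he2 : 0 ≤ 1 - e := by linarith
    calc (1 - κ) * Real.log T ^ (β ^ 2 / 4) ≤ (1 - e) ^ 3 * Real.log T ^ (β ^ 2 / 4) := by
          refine mul_le_mul_of_nonneg_right ?_ hLp
          have : 1 - 3 * e ≤ (1 - e) ^ 3 := by nlinarith [mul_pos he0 he0]
          linarith
      _ = (1 - e) * ((1 - e) ^ 2 * Real.log T ^ (β ^ 2 / 4)) := by ring
      _ ≤ (1 - e) * Real.log x ^ (β ^ 2 / 4) := mul_le_mul_of_nonneg_left pl he2
      _ ≤ W β (kk T) x := by linarith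

theorem shtU2 {κ : ℝ} (hκ : 0 < κ) (hκ1 : κ ≤ 1 / 10) : ∃ δ : ℝ, 0 < δ ∧ δ ≤ 1 / 40 ∧
    ∀ α : ℝ, 0 ≤ α → α < 1 / 2 → ∀ᶠ T : ℝ in atTop, ∀ H : ℝ, T / Real.log T ^ α ≤ H → H ≤ T →
      ∀ β : ℝ, |β - 2| ≤ δ →
        (1 - κ) * ∫ t in T..(T + H), Xz t ^ β ≤ ((1 + κ) * Real.log T ^ (β ^ 2 / 4)) * ((1 + 3 * κ) * H) := by
  obtain ⟨δ, hδ, hδ1, hW⟩ := win2 hκ hκ1
  refine ⟨δ, hδ, hδ1, fun α hα0 hα => ?_⟩
  filter_upwards [hW, kk_ev, rho_ev hκ hα, eventually_ge_atTop (max 1 (2 / κ)),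
    Real.tendsto_log_atTop.eventually_ge_atTop 1] with T hW hk hρ hT1 hL H hH1 hH2 β hβ
  obtain ⟨hβ1, hβ3, _, _⟩ := beta_range (hβ.trans hδ1)
  have hT1' := (le_max_left _ _).trans hT1
  have hT2 := (le_max_right _ _).trans hT1
  have hT : 0 < T := by linarith
  have hL0 : 0 < Real.log T := by linarith
  set La := Real.log T ^ α with hLa
  have hLa1 : 1 ≤ La := Real.one_le_rpow hL hα0
  set ρ := κ / La with hρd
  have hρ0 : 0 < ρ := by positivity
  have hρ1 : ρ ≤ κ := div_le_self hκ.le hLa1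
  have hH0 : 0 < H := lt_of_lt_of_le (by positivity) hH1
  have hρT : ρ * T ≤ κ * H := by
    have : ρ * T = κ * (T / La) := by rw [hρd]; ring
    rw [this]; exact mul_le_mul_of_nonneg_left hH1 hκ.le
  have hex : Real.exp (-(ρ ^ 2 / 8 * (kk T : ℝ))) ≤ κ / 2 := by
    calc Real.exp (-(ρ ^ 2 / 8 * (kk T : ℝ))) ≤ Real.exp (-Real.log T) :=
          Real.exp_le_exp.mpr (by linarith)
      _ = T⁻¹ := by rw [Real.exp_neg, Real.exp_log hT]
      _ ≤ κ / 2 := by
          rw [inv_le_comm₀ hT (by positivity), inv_div]; exact hT2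
  set a := T / (1 + ρ) with had
  set b := (1 + ρ) * (T + H) with hbd
  have ha0 : 0 < a := by positivity
  have haT : (1 - ρ) * T ≤ a := by
    rw [had, le_div_iff₀ (by positivity)]
    nlinarith [mul_pos (mul_pos hρ0 hρ0) hT]
  have haT2 : a ≤ T := div_le_self hT.le (by linarith)
  have haa : (1 + ρ) * a = T := by rw [had]; field_simp
  have hbT : T ≤ b := by nlinarith [mul_pos hρ0 (add_pos hT hH0)]
  have h1 := ss_low (Xz_pow_cont (show 0 ≤ β by linarith)) (fun t => Real.rpow_nonneg (Xz_nonneg t) _) hk.1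
    (a := a) (b := b) (A := T) (B := T + H) (κ := κ) ha0 (by linarith) hT (by linarith) (by linarith)
    (fun t ht => by
      have ht0 : 0 < t := hT.trans ht.1
      have p1 := phR hρ0 (by linarith) (kk T) ht0 (b := b) (by
        rw [hbd]; exact mul_le_mul_of_nonneg_left ht.2 (by positivity))
      have p2 := phL hρ0 (by linarith) (kk T) ha0 (t := t) (by rw [haa]; exact ht.1.le)
      have p3 : Real.exp (-(ρ ^ 2 / 8 * (t / a) * (kk T : ℝ))) ≤ Real.exp (-(ρ ^ 2 / 8 * (kk T : ℝ))) := by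
        apply Real.exp_le_exp.mpr
        have q1 : 1 ≤ t / a := by rw [le_div_iff₀ ha0]; linarith [ht.1]
        have q2 : 0 ≤ ρ ^ 2 / 8 * (kk T : ℝ) := by positivity
        nlinarith
      linarith)
  have hc' : 0 ≤ (1 + κ) * Real.log T ^ (β ^ 2 / 4) := by positivity
  have h9' : T / 2 ≤ a := by
    have : (1 - ρ) * T ≥ T / 2 := by nlinarith
    linarith
  have hb8 : b ≤ 8 * T := by
    rw [hbd]
    have : (1 + ρ) * (T + H) ≤ (1 + ρ) * (2 * T) := mul_le_mul_of_nonneg_left (by linarith) (by positivity)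
    nlinarith
  have h2 := ss_bd hk.1 (β := β) (a := a) (b := b) (c := (1 + κ) * Real.log T ^ (β ^ 2 / 4)) ha0 (by linarith)
    (by linarith) hc' (fun x hx => (hW x ⟨by linarith [hx.1], by linarith [hx.2]⟩ β hβ).1)
  have h3 := h1.trans h2
  have hba : b - a ≤ (1 + 3 * κ) * H := by
    have : ρ * H ≤ ρ * T := mul_le_mul_of_nonneg_left hH2 hρ0.le
    rw [hbd]
    nlinarith
  rw [ENNReal.ofReal_le_ofReal_iff (mul_nonneg hc' (by linarith))] at h3
  exact h3.trans (mul_le_mul_of_nonneg_left hba hc')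

theorem shtL2 {κ : ℝ} (hκ : 0 < κ) (hκ1 : κ ≤ 1 / 100) : ∃ δ : ℝ, 0 < δ ∧ δ ≤ 1 / 40 ∧
    ∀ α : ℝ, 0 ≤ α → α < 1 / 2 → ∀ᶠ T : ℝ in atTop, ∀ H : ℝ, T / Real.log T ^ α ≤ H → H ≤ T →
      ∀ β : ℝ, |β - 2| ≤ δ →
        ((1 - κ) * Real.log T ^ (β ^ 2 / 4)) * ((1 - 3 * κ) * H) ≤ (∫ t in T..(T + H), Xz t ^ β) + 2 := by
  obtain ⟨δ, hδ, hδ1, hW⟩ := win2 hκ (by linarith)
  refine ⟨δ, hδ, hδ1, fun α hα0 hα => ?_⟩
  filter_upwards [hW, kk_ev, rho_ev hκ hα, eventually_ge_atTop (24 ^ 5 * 2 ^ 22),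
    Real.tendsto_log_atTop.eventually_ge_atTop 1] with T hW hk hρ hT1 hL H hH1 hH2 β hβ
  obtain ⟨hβ1, hβ3, _, _⟩ := beta_range (hβ.trans hδ1)
  have hT : 0 < T := by linarith
  have hT1' : 1 ≤ T := by linarith
  have hL0 : 0 < Real.log T := by linarith
  set La := Real.log T ^ α with hLa
  have hLa1 : 1 ≤ La := Real.one_le_rpow hL hα0
  set ρ := κ / La with hρd
  have hρ0 : 0 < ρ := by positivity
  have hρ1 : ρ ≤ κ := div_le_self hκ.le hLa1
  have hH0 : 0 < H := lt_of_lt_of_le (by positivity) hH1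
  have hρT : ρ * T ≤ κ * H := by
    have : ρ * T = κ * (T / La) := by rw [hρd]; ring
    rw [this]; exact mul_le_mul_of_nonneg_left hH1 hκ.le
  have hex : Real.exp (-(ρ ^ 2 / 8 * (kk T : ℝ))) ≤ (T ^ 20)⁻¹ := by
    calc Real.exp (-(ρ ^ 2 / 8 * (kk T : ℝ))) ≤ Real.exp (-(((20:ℕ):ℝ) * Real.log T)) :=
          Real.exp_le_exp.mpr (by push_cast; linarith)
      _ = (T ^ 20)⁻¹ := by rw [Real.exp_neg, Real.exp_nat_mul, Real.exp_log hT]
  set a := (1 + ρ) * T with had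
  set b := (T + H) / (1 + ρ) with hbd
  have ha0 : 0 < a := by positivity
  have hb0 : 0 < b := by positivity
  have haT2 : T ≤ a := by nlinarith [mul_pos hρ0 hT]
  have hbb : (1 + ρ) * b = T + H := by rw [hbd]; field_simp
  have hbT : b ≤ T + H := div_le_self (by linarith) (by linarith)
  have hblow : (1 - ρ) * (T + H) ≤ b := by
    rw [hbd, le_div_iff₀ (by positivity)]
    nlinarith [mul_pos (mul_pos hρ0 hρ0) (add_pos hT hH0)]
  have hba : (1 - 3 * κ) * H ≤ b - a := by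
    have : ρ * H ≤ ρ * T := mul_le_mul_of_nonneg_left hH2 hρ0.le
    rw [had]
    nlinarith
  have hba0 : 0 ≤ (1 - 3 * κ) * H := mul_nonneg (by linarith) hH0.le
  have hc' : 0 ≤ (1 - κ) * Real.log T ^ (β ^ 2 / 4) :=
    mul_nonneg (by linarith) (Real.rpow_nonneg hL0.le _)
  have h2 := ss_bd_low hk.1 (β := β) (a := a) (b := b) (c := (1 - κ) * Real.log T ^ (β ^ 2 / 4)) ha0
    (by linarith) (by linarith) hc' (fun x hx => (hW x ⟨by linarith [hx.1], by linarith [hx.2]⟩ β hβ).2)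
  have h1 := ss_high2 (Xz_pow_cont (show 0 ≤ β by linarith)) (fun t => Real.rpow_nonneg (Xz_nonneg t) _) hk.1
    (a := a) (b := b) (A := T) (B := T + H) ha0 (by linarith) hT (by linarith)
    (fun t ht0 htT => by
      have p1 := phR hρ0 (by linarith) (kk T) ht0 (b := a) (by
        rw [had]; exact mul_le_mul_of_nonneg_left htT (by positivity))
      have p2 := X5_le (β := β) (by linarith) (by linarith) ht0.le
      have p3 : 24 ^ 5 * (1 + t) ^ 10 ≤ 24 ^ 5 * (2 * T) ^ 10 := by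
        have : (1 + t) ^ 10 ≤ (2 * T) ^ 10 := pow_le_pow_left₀ (by linarith) (by linarith) 10
        linarith
      calc Xz t ^ β * (1 - Ph (kk T) ((kk T : ℕ) * t / a)) ≤ Xz t ^ β * (T ^ 20)⁻¹ :=
            mul_le_mul_of_nonneg_left (p1.trans hex) (Real.rpow_nonneg (Xz_nonneg t) _)
        _ ≤ (24 ^ 5 * (2 * T) ^ 10) * (T ^ 20)⁻¹ :=
            mul_le_mul_of_nonneg_right (p2.trans p3) (by positivity)
        _ = (24 ^ 5 * 2 ^ 10) * (T ^ 10)⁻¹ := by
            rw [mul_pow]; field_simp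
        _ ≤ 1 / T := by
            rw [← div_eq_mul_inv, div_le_div_iff₀ (by positivity) hT]
            have : T * T ≤ T ^ 10 := by
              calc T * T = T ^ 2 := by ring
                _ ≤ T ^ 10 := pow_le_pow_right₀ hT1' (by norm_num)
            nlinarith)
    (fun t ht => by
      have ht0 : 0 < t := by linarith
      have p1 := phL hρ0 (by linarith) (kk T) hb0 (t := t) (by rw [hbb]; exact ht.le)
      have p2 := X5_le (β := β) (by linarith) (by linarith) ht0.le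
      set v := t / b with hv
      have hv1 : 1 ≤ v := by rw [hv, le_div_iff₀ hb0]; linarith
      have htv : t = v * b := by rw [hv]; field_simp
      have p4 : Real.exp (-(ρ ^ 2 / 8 * v * (kk T : ℝ))) ≤ (T ^ 20 * v ^ 12)⁻¹ := by
        rw [Real.exp_neg]
        apply inv_anti₀ (by positivity)
        calc T ^ 20 * v ^ 12 ≤ Real.exp (((20:ℕ):ℝ) * Real.log T) * Real.exp (((12:ℕ):ℝ) * (v - 1)) := by
              rw [Real.exp_nat_mul, Real.exp_log hT, Real.exp_nat_mul]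
              refine mul_le_mul_of_nonneg_left (pow_le_pow_left₀ (by linarith) ?_ 12) (by positivity)
              have := Real.add_one_le_exp (v - 1)
              linarith
          _ = Real.exp (((20:ℕ):ℝ) * Real.log T + ((12:ℕ):ℝ) * (v - 1)) := (Real.exp_add _ _).symm
          _ ≤ Real.exp (ρ ^ 2 / 8 * v * (kk T : ℝ)) := by
              apply Real.exp_le_exp.mpr
              push_cast
              have q1 : 20 * Real.log T * v ≤ (ρ ^ 2 / 8 * (kk T : ℝ)) * v :=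
                mul_le_mul_of_nonneg_right hρ (by linarith)
              nlinarith [mul_nonneg hL0.le (show 0 ≤ v - 1 by linarith)]
      have hb2 : b ≤ 2 * T := by linarith
      have p5 : (1 + t) ^ 10 ≤ (2 * t) ^ 10 := pow_le_pow_left₀ (by linarith) (by linarith) 10
      have p6 : t ^ 12 ≤ v ^ 12 * (2 * T) ^ 12 := by
        rw [htv, mul_pow]
        refine mul_le_mul_of_nonneg_left (pow_le_pow_left₀ hb0.le hb2 12) (by positivity)
      have e2 : t ^ (-2 : ℝ) = (t ^ 2)⁻¹ := by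
        rw [Real.rpow_neg ht0.le]; congr 1
        rw [← Real.rpow_natCast]; norm_num
      rw [e2]
      calc Xz t ^ β * Ph (kk T) ((kk T : ℕ) * t / b) ≤ Xz t ^ β * (T ^ 20 * v ^ 12)⁻¹ :=
            mul_le_mul_of_nonneg_left (p1.trans p4) (Real.rpow_nonneg (Xz_nonneg t) _)
        _ ≤ (24 ^ 5 * (2 * t) ^ 10) * (T ^ 20 * v ^ 12)⁻¹ :=
            mul_le_mul_of_nonneg_right (by linarith) (by positivity)
        _ ≤ (t ^ 2)⁻¹ := by
            rw [← div_eq_mul_inv, div_le_iff₀ (by positivity), ← div_eq_inv_mul, le_div_iff₀ (by positivity)]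
            have q1 : 24 ^ 5 * 2 ^ 22 * T ^ 12 ≤ T ^ 20 := by
              have : T * T ^ 12 ≤ T ^ 20 := by
                calc T * T ^ 12 = T ^ 13 := by ring
                  _ ≤ T ^ 20 := pow_le_pow_right₀ hT1' (by norm_num)
              have q2 : 24 ^ 5 * 2 ^ 22 * T ^ 12 ≤ T * T ^ 12 := mul_le_mul_of_nonneg_right hT1 (by positivity)
              linarith
            calc 24 ^ 5 * (2 * t) ^ 10 * t ^ 2 = 24 ^ 5 * 2 ^ 10 * t ^ 12 := by ring
              _ ≤ 24 ^ 5 * 2 ^ 10 * (v ^ 12 * (2 * T) ^ 12) := by gcongr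
              _ = (24 ^ 5 * 2 ^ 22 * T ^ 12) * v ^ 12 := by ring
              _ ≤ T ^ 20 * v ^ 12 := mul_le_mul_of_nonneg_right q1 (by positivity))
  have h3 := h2.trans h1
  have hi0 : 0 ≤ ∫ t in T..(T + H), Xz t ^ β := intervalIntegral.integral_nonneg (by linarith)
    fun t _ => Real.rpow_nonneg (Xz_nonneg t) _
  rw [ENNReal.ofReal_le_ofReal_iff (by positivity)] at h3
  have h4 : 1 / (T + H) ≤ 1 := by rw [div_le_one (by linarith)]; linarith
  have h5 := mul_le_mul_of_nonneg_left hba hc'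
  linarith

/-- the intervals `[T, T + H]`, both sides -/
theorem near_two_short {ε : ℝ} (hε : 0 < ε) : ∃ δ : ℝ, 0 < δ ∧ δ ≤ 1 / 40 ∧
    ∀ α : ℝ, 0 ≤ α → α < 1 / 2 → ∀ᶠ T : ℝ in atTop, ∀ H : ℝ, T / Real.log T ^ α ≤ H → H ≤ T →
      ∀ β : ℝ, |β - 2| ≤ δ →
        |(∫ t in T..(T + H), Xz t ^ β) - H * Real.log T ^ (β ^ 2 / 4)| ≤
          ε * (H * Real.log T ^ (β ^ 2 / 4)) := by
  obtain ⟨κ, hκ, hκ1, hκε⟩ : ∃ κ : ℝ, 0 < κ ∧ κ ≤ 1 / 100 ∧ 10 * κ ≤ ε :=
    ⟨min (ε / 10) (1 / 100), lt_min (by positivity) (by norm_num), min_le_right _ _, by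
      have := min_le_left (ε / 10) (1 / 100); linarith⟩
  obtain ⟨δ1, hδ1, hδ1', hU⟩ := shtU2 hκ (by linarith)
  obtain ⟨δ2, hδ2, hδ2', hL⟩ := shtL2 hκ hκ1
  refine ⟨min δ1 δ2, lt_min hδ1 hδ2, (min_le_left _ _).trans hδ1', fun α hα0 hα => ?_⟩
  have hbig : ∀ᶠ T : ℝ in atTop, 2 / κ ≤ T / Real.log T ^ α := by
    have h1 : Tendsto (fun T : ℝ => T / Real.log T ^ α) atTop atTop := by
      have h2 := (isLittleO_log_rpow_rpow_atTop α (show (0:ℝ) < 1 by norm_num)).tendsto_div_nhds_zero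
      have h3 : ∀ᶠ T : ℝ in atTop, 0 < Real.log T ^ α / T ^ (1:ℝ) := by
        filter_upwards [eventually_gt_atTop 1] with T hT
        have := Real.log_pos hT
        positivity
      have h4 := (tendsto_nhdsWithin_iff.2 ⟨h2, h3⟩).inv_tendsto_nhdsGT_zero
      refine h4.congr fun T => ?_
      simp only [Pi.inv_apply, inv_div, Real.rpow_one]
    exact h1.eventually_ge_atTop _
  filter_upwards [hU α hα0 hα, hL α hα0 hα, hbig, Real.tendsto_log_atTop.eventually_ge_atTop 1,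
    eventually_gt_atTop 0] with T hU hL hb hL1 hT H hH1 hH2 β hβ
  have hβd1 := hβ.trans (min_le_left δ1 δ2)
  have hβd2 := hβ.trans (min_le_right δ1 δ2)
  obtain ⟨hβ1, hβ3, hm0, hm2⟩ := beta_range (hβd1.trans hδ1')
  have u := hU H hH1 hH2 β hβd1
  have l := hL H hH1 hH2 β hβd2
  have hH : 2 / κ ≤ H := hb.trans hH1
  have hH0 : 0 < H := lt_of_lt_of_le (by positivity) hH
  set P := Real.log T ^ (β ^ 2 / 4) with hP
  have hP1 : 1 ≤ P := Real.one_le_rpow hL1 hm0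
  set I := ∫ t in T..(T + H), Xz t ^ β with hI
  rw [div_le_iff₀ hκ] at hH
  have hHP : 2 ≤ κ * (H * P) := by
    have : H * 1 ≤ H * P := mul_le_mul_of_nonneg_left hP1 hH0.le
    nlinarith
  have hHP0 : 0 < H * P := by positivity
  set M := H * P with hM
  have hu : (1 - κ) * I ≤ (1 + κ) * (1 + 3 * κ) * M := by
    calc (1 - κ) * I ≤ _ := u
      _ = _ := by rw [hM]; ring
  have hl : (1 - κ) * (1 - 3 * κ) * M ≤ I + 2 := by
    calc (1 - κ) * (1 - 3 * κ) * M = _ := by rw [hM]; ring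
      _ ≤ _ := l
  have k2 : κ * κ ≤ 1 / 100 * κ := mul_le_mul_of_nonneg_right hκ1 hκ.le
  have kM : 10 * κ * M ≤ ε * M := mul_le_mul_of_nonneg_right hκε hHP0.le
  rw [abs_le]
  constructor
  · have : (1 - 4 * κ) * M ≤ (1 - κ) * (1 - 3 * κ) * M := by
      refine mul_le_mul_of_nonneg_right ?_ hHP0.le
      nlinarith
    nlinarith
  · have h1 : (1 + κ) * (1 + 3 * κ) ≤ (1 - κ) * (1 + 10 * κ) := by nlinarith
    have h2 : (1 - κ) * I ≤ (1 - κ) * ((1 + 10 * κ) * M) := by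
      calc (1 - κ) * I ≤ _ := hu
        _ ≤ (1 - κ) * (1 + 10 * κ) * M := mul_le_mul_of_nonneg_right h1 hHP0.le
        _ = _ := by ring
    have h3 := le_of_mul_le_mul_left h2 (by linarith)
    linarith

end

end Pool.Agent.R313.NT
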