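import Pool.Agent.R313.NearTwo

set_option autoImplicit false

/-! Two-sided sharp asymptotics for the moments of order near two in all the intervals of `[0, T]`
that are not too short. -/

namespace Pool.Agent.R313.NT

open Finset Filter Topology MeasureTheory
open Pool.Agent.TH806

noncomputable section

theorem near_two_all' {ε : ℝ} (hε : 0 < ε) (hε1 : ε ≤ 1) : ∃ δ : ℝ, 0 < δ ∧ δ ≤ 1 / 40 ∧
    ∀ α : ℝ, 0 ≤ α → α < 1 / 2 → ∀ᶠ T : ℝ in atTop, ∀ U H : ℝ, 0 ≤ U → U + H ≤ T →
      T / Real.log T ^ α ≤ H → ∀ β : ℝ, |β - 2| ≤ δ →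
        |(∫ t in U..(U + H), Xz t ^ β) - H * Real.log T ^ (β ^ 2 / 4)| ≤
          ε * (H * Real.log T ^ (β ^ 2 / 4)) := by
  obtain ⟨δ1, hδ1, hδ1', hW⟩ := near_two_short (show 0 < ε / 4 by positivity)
  obtain ⟨δ2, hδ2, hδ2', hA⟩ := mom_T (show (0:ℝ) < 1 by norm_num)
  refine ⟨min δ1 δ2, lt_min hδ1 hδ2, (min_le_left _ _).trans hδ1', fun α hα0 hα => ?_⟩
  obtain ⟨α', hα1, hα2⟩ := exists_between hα
  obtain ⟨T0, hT0⟩ := eventually_atTop.mp (hW α' (by linarith) hα2)
  obtain ⟨X0, hX0⟩ := eventually_atTop.mp hA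
  obtain ⟨η, hη0, hη1, hη⟩ : ∃ η : ℝ, 0 < η ∧ η ≤ 1 / 4 ∧ 8 * η ≤ ε :=
    ⟨min (ε / 8) (1 / 4), lt_min (by positivity) (by norm_num), min_le_right _ _, by
      have := min_le_left (ε / 8) (1 / 4); linarith⟩
  obtain ⟨N, hN⟩ := exists_nat_gt (max 2 (16 / ε))
  have hN2 : (2:ℝ) < N := (le_max_left _ _).trans_lt hN
  have hNε : 16 / ε < N := (le_max_right _ _).trans_lt hN
  have hN0 : (0:ℝ) < N := by linarith
  have hN1 : 1 ≤ N := by
    have : (1:ℝ) ≤ N := by linarith
    exact_mod_cast this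
  rw [div_lt_iff₀ hε] at hNε
  have ev1 : ∀ᶠ T : ℝ in atTop, Real.log T ^ α ≤ 1 / N * T ^ η := by
    have h := (isLittleO_log_rpow_rpow_atTop α hη0).bound (show (0:ℝ) < 1 / N by positivity)
    filter_upwards [h, eventually_gt_atTop 1] with T h hT
    have hL : 0 < Real.log T := Real.log_pos hT
    have hT' : 0 < T := by linarith
    rwa [Real.norm_of_nonneg (by positivity), Real.norm_of_nonneg (by positivity)] at h
  have ev2 : ∀ᶠ T : ℝ in atTop, 2 * N ≤ Real.log T ^ (α' - α) :=
    ((tendsto_rpow_atTop (by linarith)).comp Real.tendsto_log_atTop).eventually_ge_atTop _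
  have ev3 : ∀ᶠ T : ℝ in atTop, max T0 X0 ≤ T ^ (1 - η) :=
    (tendsto_rpow_atTop (by linarith)).eventually_ge_atTop _
  filter_upwards [ev1, ev2, ev3, eventually_gt_atTop 1, Real.tendsto_log_atTop.eventually_ge_atTop 2]
    with T e1 e2 e3 hT hL2 U H hU hUH hH β hβ
  have hβd1 := hβ.trans (min_le_left δ1 δ2)
  have hβd2 := hβ.trans (min_le_right δ1 δ2)
  obtain ⟨hβ1, hβ3, hm0, hm2⟩ := beta_range (hβd1.trans hδ1')
  have hTp : 0 < T := by linarith
  have hL : 0 < Real.log T := by linarith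
  have hLα : 0 < Real.log T ^ α := by positivity
  have hH0 : 0 < H := lt_of_lt_of_le (by positivity) hH
  have hHT : H ≤ T := by linarith
  obtain ⟨h, hh⟩ : ∃ h : ℝ, h = H / N := ⟨_, rfl⟩
  have hh0 : 0 < h := by rw [hh]; positivity
  have hNh : N * h = H := by rw [hh]; field_simp
  set m := β ^ 2 / 4 with hm
  set P := Real.log T ^ m with hP
  have hP1 : 1 ≤ P := Real.one_le_rpow (by linarith) hm0
  have hP0 : 0 < P := by linarith
  have hc : Continuous fun t => Xz t ^ β := Xz_pow_cont (by linarith)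
  have hnn : ∀ t, 0 ≤ Xz t ^ β := fun t => Real.rpow_nonneg (Xz_nonneg t) _
  have hstep : T ^ (1 - η) ≤ h := by
    have h1 : T ≤ H * Real.log T ^ α := by rwa [div_le_iff₀ hLα] at hH
    have h2 : T ≤ H * (1 / N * T ^ η) := h1.trans (mul_le_mul_of_nonneg_left e1 hH0.le)
    have h3 : T ^ (1 - η) * T ^ η = T := by
      rw [← Real.rpow_add hTp]; norm_num
    have h4 : 0 < T ^ η := by positivity
    have h5 : T ^ (1 - η) * T ^ η ≤ h * T ^ η := by
      rw [h3, hh]
      calc T ≤ H * (1 / N * T ^ η) := h2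
        _ = _ := by ring
    exact le_of_mul_le_mul_right h5 h4
  have hT0h : T0 ≤ h := (le_max_left _ _).trans (e3.trans hstep)
  have hX0h : X0 ≤ h := (le_max_right _ _).trans (e3.trans hstep)
  -- one piece
  have hpiece : ∀ S : ℝ, h ≤ S → S ≤ T → |(∫ t in S..(S + h), Xz t ^ β) - h * P| ≤
      (ε / 4 + 2 * η) * (h * P) := by
    intro S hS1 hS2
    have hSη : T ^ (1 - η) ≤ S := hstep.trans hS1
    have hS0 : 0 < S := by linarith
    have hlog : (1 - η) * Real.log T ≤ Real.log S := by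
      rw [← Real.log_rpow hTp]
      exact Real.log_le_log (by positivity) hSη
    have hlog0 : 0 < (1 - η) * Real.log T := mul_pos (by linarith) hL
    have hlog2 : Real.log S ≤ Real.log T := Real.log_le_log hS0 hS2
    have hcond : S / Real.log S ^ α' ≤ h := by
      have a1 : ((1 - η) * Real.log T) ^ α' ≤ Real.log S ^ α' :=
        Real.rpow_le_rpow hlog0.le hlog (by linarith)
      have a2 : (1 / 2) * Real.log T ^ α' ≤ ((1 - η) * Real.log T) ^ α' := by
        rw [Real.mul_rpow (by linarith) hL.le]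
        refine mul_le_mul_of_nonneg_right ?_ (by positivity)
        calc (1 / 2 : ℝ) = (1 / 2 : ℝ) ^ (1 : ℝ) := (Real.rpow_one _).symm
          _ ≤ (1 / 2 : ℝ) ^ α' :=
              Real.rpow_le_rpow_of_exponent_ge (by norm_num) (by norm_num) (by linarith)
          _ ≤ (1 - η) ^ α' := Real.rpow_le_rpow (by norm_num) (by linarith) (by linarith)
      have a3 : 0 < (1 / 2) * Real.log T ^ α' := by positivity
      have a4 : S / Real.log S ^ α' ≤ T / ((1 / 2) * Real.log T ^ α') := by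
        apply div_le_div₀ hTp.le hS2 a3 (a2.trans a1)
      refine a4.trans ?_
      have a5 : Real.log T ^ α' = Real.log T ^ (α' - α) * Real.log T ^ α := by
        rw [← Real.rpow_add hL]
        congr 1
        ring
      have a6 : T / ((1 / 2) * Real.log T ^ α') =
          (2 / Real.log T ^ (α' - α)) * (T / Real.log T ^ α) := by
        rw [a5]
        field_simp
      rw [a6]
      have a7 : 2 / Real.log T ^ (α' - α) ≤ 1 / N := by
        rw [div_le_div_iff₀ (by positivity) hN0]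
        linarith
      calc 2 / Real.log T ^ (α' - α) * (T / Real.log T ^ α) ≤ 1 / N * H :=
            mul_le_mul a7 hH (by positivity) (by positivity)
        _ = h := by rw [hh]; ring
    have hw := hT0 S (hT0h.trans hS1) h hcond hS1 β hβd1
    have q1 : Real.log S ^ m ≤ P := Real.rpow_le_rpow (by linarith) hlog2 hm0
    have q2 : (1 - 2 * η) * P ≤ Real.log S ^ m := by
      calc (1 - 2 * η) * P ≤ (1 - η) ^ 2 * P :=
            mul_le_mul_of_nonneg_right (by nlinarith) hP0.le
        _ ≤ (1 - η) ^ m * P := by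
            refine mul_le_mul_of_nonneg_right ?_ hP0.le
            have : (1 - η) ^ 2 = (1 - η) ^ (2:ℝ) := by rw [← Real.rpow_natCast]; norm_num
            rw [this]
            exact Real.rpow_le_rpow_of_exponent_ge (by linarith) (by linarith) hm2
        _ = ((1 - η) * Real.log T) ^ m := (Real.mul_rpow (by linarith) hL.le).symm
        _ ≤ _ := Real.rpow_le_rpow hlog0.le hlog hm0
    have q3 := mul_le_mul_of_nonneg_left q1 hh0.le
    have q4 := mul_le_mul_of_nonneg_left q2 hh0.le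
    obtain ⟨w1, w2⟩ := abs_le.1 hw
    have q5 := mul_le_mul_of_nonneg_left q3 (show 0 ≤ ε / 4 by positivity)
    have q6 : 0 ≤ 2 * η * (h * P) := by positivity
    rw [abs_le]
    constructor <;> nlinarith
  -- the first piece
  have hfirst : |(∫ t in U..(U + h), Xz t ^ β) - h * P| ≤ 4 * (h * P) := by
    have hI0 : 0 ≤ ∫ t in U..(U + h), Xz t ^ β :=
      intervalIntegral.integral_nonneg (by linarith) fun t _ => hnn t
    have hX : h ≤ 2 * h := by linarith
    have h2hT : 2 * h ≤ T := by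
      have : 2 * h ≤ N * h := mul_le_mul_of_nonneg_right hN2.le hh0.le
      linarith
    have hup : (∫ t in U..(U + h), Xz t ^ β) ≤ 4 * (h * P) := by
      rcases le_or_gt h U with hc1 | hc1
      · have := (abs_le.1 (hpiece U hc1 (by linarith))).2
        have h3 : (ε / 4 + 2 * η) * (h * P) ≤ 1 * (h * P) :=
          mul_le_mul_of_nonneg_right (by linarith) (by positivity)
        linarith
      · have h4 := (abs_le.1 (hX0 (2 * h) (by linarith) β hβd2)).2
        have h5 : (∫ t in U..(U + h), Xz t ^ β) ≤ ∫ t in (0:ℝ)..(2 * h), Xz t ^ β := by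
          have e1 := intervalIntegral.integral_add_adjacent_intervals (hc.intervalIntegrable 0 U)
            (hc.intervalIntegrable U (2 * h)) (μ := volume)
          have e2 := intervalIntegral.integral_add_adjacent_intervals (hc.intervalIntegrable U (U + h))
            (hc.intervalIntegrable (U + h) (2 * h)) (μ := volume)
          have e3 : 0 ≤ ∫ t in (0:ℝ)..U, Xz t ^ β := intervalIntegral.integral_nonneg hU fun t _ => hnn t
          have e4 : 0 ≤ ∫ t in (U + h)..(2 * h), Xz t ^ β :=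
            intervalIntegral.integral_nonneg (by linarith) fun t _ => hnn t
          linarith
        have h6 : Real.log (2 * h) ^ m ≤ P := by
          have hT1 : (1:ℝ) ≤ T ^ (1 - η) := Real.one_le_rpow hT.le (by linarith)
          exact Real.rpow_le_rpow (Real.log_nonneg (by linarith)) (Real.log_le_log (by linarith) h2hT) hm0
        have h7 : 2 * h * Real.log (2 * h) ^ m ≤ 2 * h * P := mul_le_mul_of_nonneg_left h6 (by linarith)
        linarith
    have : 0 < h * P := by positivity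
    rw [abs_le]
    constructor <;> linarith
  have hx0 : 0 < h * P := by positivity
  have hpieces : ∀ j ∈ Ico 1 N, |(∫ t in (U + (j:ℝ) * h)..(U + ((j + 1 : ℕ):ℝ) * h), Xz t ^ β) - h * P| ≤
      (ε / 4 + 2 * η) * (h * P) := by
    intro j hj
    rw [mem_Ico] at hj
    have hj1 : (1:ℝ) ≤ j := by exact_mod_cast hj.1
    have hj2 : (j:ℝ) + 1 ≤ N := by exact_mod_cast hj.2
    have h1 : h ≤ (j:ℝ) * h := by
      calc h = 1 * h := (one_mul h).symm
        _ ≤ _ := mul_le_mul_of_nonneg_right hj1 hh0.le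
    have h2 : ((j:ℝ) + 1) * h ≤ N * h := mul_le_mul_of_nonneg_right hj2 hh0.le
    have h3 := hpiece (U + (j:ℝ) * h) (by linarith) (by linarith)
    have e : U + ((j + 1 : ℕ):ℝ) * h = U + (j:ℝ) * h + h := by push_cast; ring
    rw [e]
    exact h3
  have hsum : |∑ j ∈ Ico 1 N, ((∫ t in (U + (j:ℝ) * h)..(U + ((j + 1 : ℕ):ℝ) * h), Xz t ^ β) - h * P)| ≤
      ((N:ℝ) - 1) * ((ε / 4 + 2 * η) * (h * P)) := by
    refine (abs_sum_le_sum_abs _ _).trans ((sum_le_sum hpieces).trans (le_of_eq ?_))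
    rw [sum_const, Nat.card_Ico, nsmul_eq_mul, Nat.cast_sub hN1]
    norm_num
  rw [sum_sub_distrib, intervalIntegral.sum_integral_adjacent_intervals_Ico (a := fun j : ℕ => U + (j:ℝ) * h)
    hN1 (fun j _ => hc.intervalIntegrable _ _), sum_const, Nat.card_Ico, nsmul_eq_mul, Nat.cast_sub hN1] at hsum
  have e4 : U + ((1 : ℕ):ℝ) * h = U + h := by push_cast; ring
  rw [e4, hNh] at hsum
  have e5 := intervalIntegral.integral_add_adjacent_intervals (hc.intervalIntegrable U (U + h))
    (hc.intervalIntegrable (U + h) (U + H)) (μ := volume)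
  rw [← e5]
  have e6 : H * P = N * (h * P) := by rw [← hNh]; ring
  obtain ⟨s1, s2⟩ := abs_le.1 hsum
  obtain ⟨f1, f2⟩ := abs_le.1 hfirst
  push_cast at s1 s2
  set x := h * P with hx
  have g1 : 16 * x ≤ N * ε * x := mul_le_mul_of_nonneg_right hNε.le hx0.le
  have g2 : N * ((ε / 4 + 2 * η) * x) ≤ N * (ε / 2 * x) :=
    mul_le_mul_of_nonneg_left (mul_le_mul_of_nonneg_right (by linarith) hx0.le) hN0.le
  have g3 : ((N:ℝ) - 1) * ((ε / 4 + 2 * η) * x) ≤ N * ((ε / 4 + 2 * η) * x) :=
    mul_le_mul_of_nonneg_right (by linarith) (by positivity)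
  rw [e6, abs_le]
  constructor <;> nlinarith

theorem near_two_all {ε : ℝ} (hε : 0 < ε) : ∃ δ : ℝ, 0 < δ ∧ δ ≤ 1 / 40 ∧
    ∀ α : ℝ, 0 ≤ α → α < 1 / 2 → ∀ᶠ T : ℝ in atTop, ∀ U H : ℝ, 0 ≤ U → U + H ≤ T →
      T / Real.log T ^ α ≤ H → ∀ β : ℝ, |β - 2| ≤ δ →
        |(∫ t in U..(U + H), Xz t ^ β) - H * Real.log T ^ (β ^ 2 / 4)| ≤
          ε * (H * Real.log T ^ (β ^ 2 / 4)) := by
  rcases le_or_gt ε 1 with h | h
  · exact near_two_all' hε h
  · obtain ⟨δ, a, b, c⟩ := near_two_all' (show (0:ℝ) < 1 by norm_num) le_rfl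
    refine ⟨δ, a, b, fun α h0 h1 => ?_⟩
    filter_upwards [c α h0 h1, eventually_gt_atTop 1] with T hT hT1 U H hU hUH hH β hβ
    have hL := Real.log_pos hT1
    have hH0 : 0 < H := lt_of_lt_of_le (by positivity) hH
    exact (hT U H hU hUH hH β hβ).trans (mul_le_mul_of_nonneg_right h.le (by positivity))

end

end Pool.Agent.R313.NT
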