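import Pool.Agent.R313.WinReal
import Pool.Agent.Y756.K.Main3
import Pool.Agent.Y756.T.Main5
import Pool.Agent.Y756.S.Main7

set_option autoImplicit false

/-! The third, fifth and seventh moment on all intervals of `[0, T]` that are not too short. -/

namespace Pool.Agent.R313

open Finset Filter Topology MeasureTheory
open Pool.Agent.H306R2 Pool.Agent.H306R2.SM
open Pool.Agent.H223.EM hiding mw
open Pool.Agent.Y756.T

noncomputable section

/-- from a Gamma window bound to all intervals -/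
theorem all_of_gamma (n : ℕ) (c C m : ℝ) (hC : 0 ≤ C) (hcC : C < c) (hm : 0 ≤ m)
    (h : ∀ᶠ T : ℝ in atTop, ∀ k : ℕ, kr' T k → c * Real.log T ^ m ≤
      ∫ t in Set.Ioi (0 : ℝ), om k (k / T) t * ‖riemannZeta (cl t)‖ ^ n)
    (α : ℝ) (hα0 : 0 ≤ α) (hα : α < 1 / 2) :
    ∀ᶠ T : ℝ in atTop, ∀ U H : ℝ, 0 ≤ U → U + H ≤ T → T / Real.log T ^ α ≤ H →
      C * H * Real.log T ^ m ≤ ∫ t in U..(U + H), ‖riemannZeta (cl t)‖ ^ n := by
  obtain ⟨c2, hc2, hc21⟩ := exists_between hcC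
  obtain ⟨β, hβ1, hβ2⟩ := exists_between hα
  have hpz := Pool.Agent.H284R2.EM.PG.zeta
  obtain ⟨hcz, Cz, Az, hCz, hz⟩ := hpz.pow n
  have hcont : Continuous (fun t : ℝ => ‖riemannZeta (cl t)‖ ^ n) := hpz.1.norm.pow n
  have hw := window_short_real (fun t : ℝ => ‖riemannZeta (cl t)‖ ^ n) hcont
    (fun t => by positivity) ⟨Cz, Az, fun t ht => by
      have := hz t ht
      rwa [norm_pow] at this⟩ c (hC.trans hcC.le) m hm (by
      filter_upwards [h] with T hT k hk1 hk2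
      exact hT k ⟨hk1, hk2⟩) β (hα0.trans hβ1.le) hβ2 c2 hc21
  exact window_all_real (fun t : ℝ => ‖riemannZeta (cl t)‖ ^ n) hcont (fun t => by positivity) m hm
    c2 C hC hc2 α β hα0 hβ1 (by linarith) hw

theorem third_all (α : ℝ) (hα0 : 0 ≤ α) (hα : α < 1 / 2) :
    ∀ᶠ T : ℝ in atTop, ∀ U H : ℝ, 0 ≤ U → U + H ≤ T → T / Real.log T ^ α ≤ H →
      7 / 8 / Real.Gamma (13 / 4) * aF (3 / 2) * H * Real.log T ^ (9 / 4 : ℝ) ≤
        ∫ t in U..(U + H), ‖riemannZeta (cl t)‖ ^ 3 := by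
  obtain ⟨p, w, ν, hp, hν, h1, h3, h4⟩ := params3
  have hA := aF_pos (κ := 3 / 2) (by norm_num)
  set A := aF (3 / 2) with hAd
  have hG := Real.Gamma_pos_of_pos (show (0 : ℝ) < 13 / 4 by norm_num)
  have hf := func3 (A * p) (A * w) ν hν
    (mul_lt_mul_of_pos_left h1 hA) (mul_lt_mul_of_pos_left h3 hA)
  have e : 3 / 2 * ν * (A * p - ν ^ 2 * (A * w) / 3) =
      A * (3 / 2 * ν * (p - ν ^ 2 * w / 3)) := by ring
  rw [e] at hf
  set M := 3 / 2 * ν * (p - ν ^ 2 * w / 3) with hM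
  refine all_of_gamma 3 (A * M) _ (9 / 4) (by positivity) ?_ (by norm_num) hf α hα0 hα
  calc 7 / 8 / Real.Gamma (13 / 4) * A < M * A := mul_lt_mul_of_pos_right h4 hA
    _ = A * M := mul_comm _ _

theorem fifth_all (α : ℝ) (hα0 : 0 ≤ α) (hα : α < 1 / 2) :
    ∀ᶠ T : ℝ in atTop, ∀ U H : ℝ, 0 ≤ U → U + H ≤ T → T / Real.log T ^ α ≤ H →
      337 / 100 / Real.Gamma (29 / 4) * aF (5 / 2) * H * Real.log T ^ (25 / 4 : ℝ) ≤
        ∫ t in U..(U + H), ‖riemannZeta (cl t)‖ ^ 5 := by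
  obtain ⟨p, q, w, ν, hp, hq, hν, h1, h2, h3, h4⟩ := params5
  have hA := aF_pos (κ := 5 / 2) (by norm_num)
  set A := aF (5 / 2) with hAd
  have hG := Real.Gamma_pos_of_pos (show (0 : ℝ) < 29 / 4 by norm_num)
  have hf := func5 (A * p) (A * q) (A * w) ν (by positivity) (by positivity) hν
    (mul_lt_mul_of_pos_left h1 hA) (mul_lt_mul_of_pos_left h2 hA) (mul_lt_mul_of_pos_left h3 hA)
  have e : 5 / 4 * ν * ((A * p) ^ 2 / (A * q) - ν ^ 4 * (A * w) / 5) =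
      A * (5 / 4 * ν * (p ^ 2 / q - ν ^ 4 * w / 5)) := by
    have e1 : (A * p) ^ 2 / (A * q) = A * (p ^ 2 / q) := by
      field_simp
    rw [e1]; ring
  rw [e] at hf
  set M := 5 / 4 * ν * (p ^ 2 / q - ν ^ 4 * w / 5) with hM
  refine all_of_gamma 5 (A * M) _ (25 / 4) (by positivity) ?_ (by norm_num) hf α hα0 hα
  calc 337 / 100 / Real.Gamma (29 / 4) * A < M * A := mul_lt_mul_of_pos_right h4 hA
    _ = A * M := mul_comm _ _

theorem seventh_all (α : ℝ) (hα0 : 0 ≤ α) (hα : α < 1 / 2) :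
    ∀ᶠ T : ℝ in atTop, ∀ U H : ℝ, 0 ≤ U → U + H ≤ T → T / Real.log T ^ α ≤ H →
      32 / Real.Gamma (53 / 4) * aF (7 / 2) * H * Real.log T ^ (49 / 4 : ℝ) ≤
        ∫ t in U..(U + H), ‖riemannZeta (cl t)‖ ^ 7 := by
  obtain ⟨p, q, w, ν, hp, hq, hν, h1, h2, h3, h4⟩ := params7
  have hA := aF_pos (κ := 7 / 2) (by norm_num)
  set A := aF (7 / 2) with hAd
  have hG := Real.Gamma_pos_of_pos (show (0 : ℝ) < 53 / 4 by norm_num)
  have hf := func7 (A * p) (A * q) (A * w) ν (by positivity) (by positivity) hν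
    (mul_lt_mul_of_pos_left h1 hA) (mul_lt_mul_of_pos_left h2 hA) (mul_lt_mul_of_pos_left h3 hA)
  have e : 7 / 6 * ν * ((A * p) ^ 2 / (A * q) - ν ^ 6 * (A * w) / 7) =
      A * (7 / 6 * ν * (p ^ 2 / q - ν ^ 6 * w / 7)) := by
    have e1 : (A * p) ^ 2 / (A * q) = A * (p ^ 2 / q) := by
      field_simp
    rw [e1]; ring
  rw [e] at hf
  set M := 7 / 6 * ν * (p ^ 2 / q - ν ^ 6 * w / 7) with hM
  refine all_of_gamma 7 (A * M) _ (49 / 4) (by positivity) ?_ (by norm_num) hf α hα0 hα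
  calc 32 / Real.Gamma (53 / 4) * A < M * A := mul_lt_mul_of_pos_right h4 hA
    _ = A * M := mul_comm _ _

end

end Pool.Agent.R313
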