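import Mathlib

set_option autoImplicit false

/-! Moments off sets of small measure, from a lower bound for the measures of the level sets. -/

namespace Pool.Agent.R313

open Filter MeasureTheory

/-- one level -/
theorem trim_level (f : ℝ → ℝ) (hf : Continuous f) (S A : Set ℝ) (mS : MeasurableSet S)
    (mA : MeasurableSet A) (a b : ℝ) (hSI : S ⊆ Set.Icc a b) (v k m : ℝ) (hk : 0 ≤ k)
    (hv : ∀ t ∈ S, Real.exp v ≤ f t) (hf0 : ∀ t, 0 ≤ f t)
    (hm : m ≤ volume.real S) (hD : volume.real (Set.Icc a b \ A) ≤ m / 2) :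
    Real.exp (2 * k * v) * (m / 2) ≤ ∫ t in S ∩ A, f t ^ (2 * k) := by
  have hfin : volume (Set.Icc a b) ≠ ⊤ := by
    rw [Real.volume_Icc]; exact ENNReal.ofReal_ne_top
  have hS : volume S ≠ ⊤ := ne_top_of_le_ne_top hfin (measure_mono hSI)
  have h1 := measureReal_inter_add_sdiff (μ := volume) (s := S) mA hS
  have h2 : volume.real (S \ A) ≤ volume.real (Set.Icc a b \ A) :=
    measureReal_mono (Set.sdiff_subset_sdiff_left hSI)
      (ne_top_of_le_ne_top hfin (measure_mono Set.sdiff_subset))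
  have h3 : m / 2 ≤ volume.real (S ∩ A) := by linarith
  have hc : Continuous (fun t => f t ^ (2 * k)) :=
    hf.rpow_const (fun t => Or.inr (by linarith))
  have hI : IntegrableOn (fun t => f t ^ (2 * k)) (S ∩ A) :=
    (hc.integrableOn_Icc (a := a) (b := b)).mono_set (Set.inter_subset_left.trans hSI)
  have hSA : volume (S ∩ A) ≠ ⊤ := ne_top_of_le_ne_top hS (measure_mono Set.inter_subset_left)
  have h4 : Real.exp (2 * k * v) * volume.real (S ∩ A) ≤ ∫ t in S ∩ A, f t ^ (2 * k) := by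
    refine setIntegral_ge_of_const_le_real (mS.inter mA) hSA (fun t ht => ?_) hI
    have h5 := Real.rpow_le_rpow (Real.exp_pos v).le (hv t ht.1) (by linarith : 0 ≤ 2 * k)
    rw [← Real.exp_mul] at h5
    rwa [show 2 * k * v = v * (2 * k) by ring]
  refine le_trans ?_ h4
  exact mul_le_mul_of_nonneg_left h3 (Real.exp_pos _).le

/-- all levels -/
theorem trim_core (f : ℝ → ℝ) (hf : Continuous f) (hf0 : ∀ t, 0 ≤ f t) (E : Set ℝ)
    (mE : MeasurableSet E) (c W B κ K y : ℝ) (hc : 0 < c) (hW : 0 < W) (hκ : 0 < κ) (hK : 0 ≤ K)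
    (hy : y = K / (2 * κ) + K + 1) (T H s k : ℝ) (hH : 0 ≤ H) (hk : κ ≤ k) (hkB : k ≤ B)
    (hs1 : 2 * (2 * W + 1) ≤ s) (hs2 : (y + 1) / κ ≤ s)
    (hs3 : 2 * s * Real.exp ((y + 1) ^ 2) ≤ c * Real.exp (2 * κ * s))
    (hlev : ∀ V : ℝ, |V| ≤ B * s ^ 2 → c * H * (Real.exp (-(V ^ 2 / s ^ 2)) / s) ≤
      volume.real {t ∈ E ∩ Set.Icc T (T + H) | Real.exp (V - W) ≤ f t ∧ f t ≤ Real.exp (V + W)})
    (A : Set ℝ) (mA : MeasurableSet A)
    (hA : volume.real (Set.Icc T (T + H) \ A) ≤ H * Real.exp (-(k ^ 2 * s ^ 2) + K * s)) :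
    c / 2 * Real.exp (-(2 * B * W)) * Real.exp (-(y + 1) ^ 2) / (2 * (2 * W + 1)) *
      H * Real.exp (k ^ 2 * s ^ 2) ≤
      ∫ t in A ∩ Set.Icc T (T + H) ∩ {t | f t ≤ Real.exp (k * s ^ 2 - K * s)}, f t ^ (2 * k) := by
  have hs0 : 0 < s := by linarith
  have hk0 : 0 < k := by linarith
  have hy1 : K + 1 ≤ y := by
    have : 0 ≤ K / (2 * κ) := by positivity
    linarith
  have hy0 : 0 < y := by linarith
  set N : ℕ := ⌊s / (2 * W + 1)⌋₊ with hN
  have hW1 : 0 < 2 * W + 1 := by linarith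
  have hN1 : (N : ℝ) ≤ s / (2 * W + 1) := Nat.floor_le (by positivity)
  have hN2 : s / (2 * W + 1) < N + 1 := Nat.lt_floor_add_one _
  have hN3 : s / (2 * (2 * W + 1)) ≤ N := by
    have h1 : s / (2 * W + 1) = 2 * (s / (2 * (2 * W + 1))) := by field_simp
    have h2 : 1 ≤ s / (2 * (2 * W + 1)) := by rw [le_div_iff₀ (by positivity)]; linarith
    linarith
  -- the levels
  set V : ℕ → ℝ := fun j => k * s ^ 2 - y * s - j * (2 * W + 1) with hV
  set z : ℕ → ℝ := fun j => y + j * (2 * W + 1) / s with hz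
  have hVz : ∀ j, V j = k * s ^ 2 - z j * s := by
    intro j
    rw [hV, hz]
    have : s ≠ 0 := hs0.ne'
    field_simp
    ring
  have hzj : ∀ j, j < N → y ≤ z j ∧ z j ≤ y + 1 := by
    intro j hj
    have h1 : (j : ℝ) ≤ N := by exact_mod_cast hj.le
    have h2 : (j : ℝ) * (2 * W + 1) ≤ s := by
      have h3 := mul_le_mul_of_nonneg_right (h1.trans hN1) hW1.le
      rwa [div_mul_cancel₀ _ hW1.ne'] at h3
    constructor
    · have : 0 ≤ (j : ℝ) * (2 * W + 1) / s := by positivity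
      rw [hz]; simp only; linarith
    · have : (j : ℝ) * (2 * W + 1) / s ≤ 1 := by rw [div_le_one hs0]; exact h2
      rw [hz]; simp only; linarith
  have hVB : ∀ j, j < N → |V j| ≤ B * s ^ 2 := by
    intro j hj
    obtain ⟨h1, h2⟩ := hzj j hj
    rw [hVz, abs_le]
    have h3 : (y + 1) ≤ κ * s := by
      rw [div_le_iff₀ hκ] at hs2; linarith
    have h4 : z j * s ≤ κ * s ^ 2 := by
      have := mul_le_mul_of_nonneg_right (h2.trans h3) hs0.le
      nlinarith
    have h5 : κ * s ^ 2 ≤ k * s ^ 2 := mul_le_mul_of_nonneg_right hk (by positivity)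
    have h6 : k * s ^ 2 ≤ B * s ^ 2 := mul_le_mul_of_nonneg_right hkB (by positivity)
    have h7 : 0 ≤ z j * s := mul_nonneg (hy0.le.trans h1) hs0.le
    have h8 : 0 ≤ k * s ^ 2 := by positivity
    constructor <;> linarith
  have hsq : ∀ j, V j ^ 2 / s ^ 2 = k ^ 2 * s ^ 2 - 2 * k * z j * s + z j ^ 2 := by
    intro j
    rw [hVz]
    have : s ≠ 0 := hs0.ne'
    field_simp
    ring
  set Lv : ℕ → Set ℝ := fun j =>
    {t ∈ E ∩ Set.Icc T (T + H) | Real.exp (V j - W) ≤ f t ∧ f t ≤ Real.exp (V j + W)} with hLv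
  have mL : ∀ j, MeasurableSet (Lv j) := by
    intro j
    have e : Lv j = (E ∩ Set.Icc T (T + H)) ∩
        ({t | Real.exp (V j - W) ≤ f t} ∩ {t | f t ≤ Real.exp (V j + W)}) := by
      ext t; simp only [hLv, Set.mem_setOf_eq, Set.mem_inter_iff]
    rw [e]
    exact (mE.inter measurableSet_Icc).inter
      ((isClosed_le continuous_const hf).measurableSet.inter
        (isClosed_le hf continuous_const).measurableSet)
  have hLI : ∀ j, Lv j ⊆ Set.Icc T (T + H) := fun j t ht => ht.1.2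
  -- the exponent comparison
  have hcmp : ∀ j, j < N → H * Real.exp (-(k ^ 2 * s ^ 2) + K * s) ≤
      c * H * (Real.exp (-(V j ^ 2 / s ^ 2)) / s) / 2 := by
    intro j hj
    obtain ⟨h1, h2⟩ := hzj j hj
    rw [hsq]
    have h3 : (y + 1) ^ 2 ≥ z j ^ 2 := pow_le_pow_left₀ (by linarith) h2 2
    have h4 : K * s + 2 * κ * s ≤ 2 * k * z j * s := by
      have h5 : K + 2 * κ ≤ 2 * κ * y := by
        rw [hy]
        have : 2 * κ * (K / (2 * κ) + K + 1) = K + 2 * κ * K + 2 * κ := by field_simp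
        rw [this]
        have : 0 ≤ 2 * κ * K := by positivity
        linarith
      have h6 : 2 * κ * y ≤ 2 * k * z j := by
        have := mul_le_mul hk h1 hy0.le hk0.le
        linarith
      have := mul_le_mul_of_nonneg_right (h5.trans h6) hs0.le
      linarith
    have h5 : Real.exp (-(k ^ 2 * s ^ 2) + K * s) * (2 * s) ≤
        c * Real.exp (-(k ^ 2 * s ^ 2 - 2 * k * z j * s + z j ^ 2)) := by
      have h6 : 2 * s ≤ c * Real.exp (2 * κ * s) * Real.exp (-(y + 1) ^ 2) := by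
        have := mul_le_mul_of_nonneg_right hs3 (Real.exp_pos (-(y + 1) ^ 2)).le
        rwa [mul_assoc, ← Real.exp_add, show (y + 1) ^ 2 + -(y + 1) ^ 2 = 0 by ring,
          Real.exp_zero, mul_one] at this
      calc Real.exp (-(k ^ 2 * s ^ 2) + K * s) * (2 * s)
          ≤ Real.exp (-(k ^ 2 * s ^ 2) + K * s) *
            (c * Real.exp (2 * κ * s) * Real.exp (-(y + 1) ^ 2)) :=
              mul_le_mul_of_nonneg_left h6 (Real.exp_pos _).le
        _ = c * Real.exp (-(k ^ 2 * s ^ 2) + K * s + 2 * κ * s + -(y + 1) ^ 2) := by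
              rw [Real.exp_add, Real.exp_add, Real.exp_add]; rw [Real.exp_add]; ring
        _ ≤ _ := by
              apply mul_le_mul_of_nonneg_left _ hc.le
              apply Real.exp_le_exp.2
              linarith
    have h6 : Real.exp (-(k ^ 2 * s ^ 2) + K * s) ≤
        c * Real.exp (-(k ^ 2 * s ^ 2 - 2 * k * z j * s + z j ^ 2)) / (2 * s) := by
      rw [le_div_iff₀ (by positivity)]; exact h5
    calc H * Real.exp (-(k ^ 2 * s ^ 2) + K * s)
        ≤ H * (c * Real.exp (-(k ^ 2 * s ^ 2 - 2 * k * z j * s + z j ^ 2)) / (2 * s)) :=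
          mul_le_mul_of_nonneg_left h6 hH
      _ = _ := by field_simp
  have hone : ∀ j ∈ Finset.range N,
      c / 2 * Real.exp (-(2 * B * W)) * Real.exp (-(y + 1) ^ 2) * H * Real.exp (k ^ 2 * s ^ 2) / s ≤
      ∫ t in Lv j ∩ A, f t ^ (2 * k) := by
    intro j hj
    rw [Finset.mem_range] at hj
    obtain ⟨h1, h2⟩ := hzj j hj
    have h3 := trim_level f hf (Lv j) A (mL j) mA T (T + H) (hLI j) (V j - W) k
      (c * H * (Real.exp (-(V j ^ 2 / s ^ 2)) / s)) hk0.le (fun t ht => ht.2.1) hf0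
      (hlev (V j) (hVB j hj)) (hA.trans (hcmp j hj))
    refine le_trans ?_ h3
    have h4 : Real.exp (2 * k * (V j - W)) * (c * H * (Real.exp (-(V j ^ 2 / s ^ 2)) / s) / 2) =
        c / 2 * H / s * Real.exp (k ^ 2 * s ^ 2 - z j ^ 2 - 2 * k * W) := by
      rw [show k ^ 2 * s ^ 2 - z j ^ 2 - 2 * k * W =
        2 * k * (V j - W) + -(V j ^ 2 / s ^ 2) by rw [hsq, hVz]; ring, Real.exp_add]
      ring
    rw [h4]
    have h5 : c / 2 * Real.exp (-(2 * B * W)) * Real.exp (-(y + 1) ^ 2) * H *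
        Real.exp (k ^ 2 * s ^ 2) / s =
        c / 2 * H / s * Real.exp (k ^ 2 * s ^ 2 + -(y + 1) ^ 2 + -(2 * B * W)) := by
      rw [Real.exp_add, Real.exp_add]; ring
    rw [h5]
    apply mul_le_mul_of_nonneg_left _ (by positivity)
    apply Real.exp_le_exp.2
    have h6 : z j ^ 2 ≤ (y + 1) ^ 2 := pow_le_pow_left₀ (by linarith) h2 2
    have h7 : k * W ≤ B * W := mul_le_mul_of_nonneg_right hkB hW.le
    linarith
  have hc' : Continuous (fun t => f t ^ (2 * k)) :=
    hf.rpow_const (fun t => Or.inr (by linarith))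
  have hdisj : Set.Pairwise (↑(Finset.range N)) (Function.onFun Disjoint (fun j => Lv j ∩ A)) := by
    intro i _ j _ hij
    rw [Function.onFun, Set.disjoint_left]
    rintro t ⟨⟨-, hi1, hi2⟩, -⟩ ⟨⟨-, hj1, hj2⟩, -⟩
    have key : ∀ a b : ℕ, a < b → Real.exp (V a - W) ≤ f t → f t ≤ Real.exp (V b + W) → False := by
      intro a b hab h1 h2
      have h3 := Real.exp_le_exp.1 (h1.trans h2)
      have h4 : (a : ℝ) + 1 ≤ b := by exact_mod_cast hab
      have h5 : (a + 1 : ℝ) * (2 * W + 1) ≤ b * (2 * W + 1) := mul_le_mul_of_nonneg_right h4 hW1.le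
      simp only [hV] at h3
      linarith
    rcases lt_or_gt_of_ne hij with h | h
    · exact key i j h hi1 hj2
    · exact key j i h hj1 hi2
  have hsum := integral_biUnion_finset (μ := volume) (f := fun t => f t ^ (2 * k)) (Finset.range N)
    (fun j _ => (mL j).inter mA) hdisj (fun j _ =>
      (hc'.integrableOn_Icc (a := T) (b := T + H)).mono_set (Set.inter_subset_left.trans (hLI j)))
  have hmono : ∫ t in ⋃ j ∈ Finset.range N, Lv j ∩ A, f t ^ (2 * k) ≤
      ∫ t in A ∩ Set.Icc T (T + H) ∩ {t | f t ≤ Real.exp (k * s ^ 2 - K * s)}, f t ^ (2 * k) := by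
    apply setIntegral_mono_set
    · exact (hc'.integrableOn_Icc (a := T) (b := T + H)).mono_set
        (Set.inter_subset_left.trans Set.inter_subset_right)
    · exact Filter.Eventually.of_forall (fun t => Real.rpow_nonneg (hf0 t) _)
    · refine HasSubset.Subset.eventuallyLE ?_
      intro t ht
      simp only [Set.mem_iUnion, exists_prop, Finset.mem_range] at ht
      obtain ⟨j, hj, ⟨⟨h1, h2⟩, h3, h4⟩, h5⟩ := ht
      refine ⟨⟨h5, h2⟩, ?_⟩
      refine h4.trans (Real.exp_le_exp.2 ?_)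
      rw [hVz]
      obtain ⟨h6, h7⟩ := hzj j hj
      have h8 : (K + 1) * s ≤ z j * s := mul_le_mul_of_nonneg_right (hy1.trans h6) hs0.le
      linarith
  refine le_trans ?_ hmono
  rw [hsum]
  have h9 := Finset.card_nsmul_le_sum (Finset.range N) _ _ hone
  refine le_trans ?_ h9
  rw [Finset.card_range, nsmul_eq_mul]
  have h10 : 0 ≤ c / 2 * Real.exp (-(2 * B * W)) * Real.exp (-(y + 1) ^ 2) * H *
      Real.exp (k ^ 2 * s ^ 2) / s := by positivity
  refine le_trans (le_of_eq ?_) (mul_le_mul_of_nonneg_right hN3 h10)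
  field_simp

end Pool.Agent.R313
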