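import Pool.Agent.H176RZ.Window

set_option autoImplicit false

/-!
Short windows and all intervals, with a real exponent of the logarithm
(adapted from `Pool.Agent.H176RZ.Window` and `Pool.Agent.TH158.E8.WinAll`).
-/

namespace Pool.Agent.R313

open Finset Filter Topology MeasureTheory Pool.Agent.H306R2 Pool.Agent.H306R2.SM
open Pool.Agent.H965R2.SMT1 Pool.Agent.H601R2.SMLoc Pool.Agent.H176RZ

noncomputable section

/-- short windows -/
theorem window_short_real (f : ℝ → ℝ) (hf : Continuous f) (hf0 : ∀ t, 0 ≤ f t)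
    (hA : ∃ C : ℝ, ∃ A : ℕ, ∀ t : ℝ, 0 ≤ t → f t ≤ C * (1 + t) ^ A) (c : ℝ) (hc : 0 ≤ c) (m : ℝ) (hm : 0 ≤ m)
    (h : ∀ᶠ T : ℝ in atTop, ∀ k : ℕ, Real.log T ^ 2 ≤ k → (k : ℝ) ≤ 4 * Real.log T ^ 2 →
      c * Real.log T ^ m ≤ ∫ t in Set.Ioi (0 : ℝ), om k (k / T) t * f t)
    (α : ℝ) (hα0 : 0 ≤ α) (hα : α < 1 / 2) :
    ∀ c' < c, ∀ᶠ T : ℝ in atTop, ∀ H : ℝ, T / Real.log T ^ α ≤ H → H ≤ T →
      c' * H * Real.log T ^ m ≤ ∫ t in T..(T + H), f t := by
  intro c' hc'
  obtain ⟨η, hη0, hη1, hη2⟩ : ∃ η : ℝ, 0 < η ∧ η < 1 / 4 ∧ c' < c * (1 - 2 * η) := by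
    have h1 : Tendsto (fun θ : ℝ => c * (1 - 2 * θ)) (𝓝[>] 0) (𝓝 (c * (1 - 2 * 0))) :=
      (Continuous.tendsto (by fun_prop) 0).mono_left nhdsWithin_le_nhds
    rw [mul_zero, sub_zero, mul_one] at h1
    have h2 := h1.eventually_const_lt hc'
    have h3 : ∀ᶠ θ : ℝ in 𝓝[>] 0, θ < 1 / 4 :=
      (eventually_lt_nhds (by norm_num)).filter_mono nhdsWithin_le_nhds
    have h4 : ∀ᶠ θ : ℝ in 𝓝[>] 0, 0 < θ := self_mem_nhdsWithin
    obtain ⟨θ, ha, hb, hc⟩ := (h2.and (h3.and h4)).exists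
    exact ⟨θ, hc, hb, ha⟩
  obtain ⟨C, A, hCA⟩ := hA
  have hC : 0 ≤ C := by
    have := hCA 0 le_rfl
    simp only [add_zero, one_pow, mul_one] at this
    exact (hf0 0).trans this
  obtain ⟨T0, hT0⟩ := eventually_atTop.1 h
  set κ0 := c * (1 - 2 * η) - c' with hκ0
  have hκ0' : 0 < κ0 := by linarith
  have hlog := Real.tendsto_log_atTop
  have hpow : Tendsto (fun T : ℝ => Real.log T ^ (1 - 2 * α)) atTop atTop :=
    (tendsto_rpow_atTop (by linarith)).comp hlog
  have hTL : ∀ᶠ T : ℝ in atTop, Real.log T ≤ T := by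
    filter_upwards [eventually_gt_atTop 0] with T hT
    have := Real.log_le_sub_one_of_pos hT
    linarith
  filter_upwards [hlog.eventually_ge_atTop (max 1 (5 * Real.log 2)),
    hpow.eventually_ge_atTop ((2 * (A : ℝ) + 5) * 36 / η ^ 2),
    hTL,
    eventually_ge_atTop (max (max 1 T0) (max (C * 2 ^ A) (2 / κ0)))] with T t4 t5 tL t6 H hH1 hH2
  set L := Real.log T with hL
  have hL1 : 1 ≤ L := (le_max_left _ _).trans t4
  have hL5 : 5 * Real.log 2 ≤ L := (le_max_right _ _).trans t4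
  have hL0 : 0 < L := by linarith
  have hT1 : 1 ≤ T := (le_max_left _ _).trans ((le_max_left _ _).trans t6)
  have hT0' : T0 ≤ T := (le_max_right _ _).trans ((le_max_left _ _).trans t6)
  have hTpos : 0 < T := by linarith
  have hCT : C * 2 ^ A ≤ T := (le_max_left _ _).trans ((le_max_right _ _).trans t6)
  have hκT : 2 / κ0 ≤ T := (le_max_right _ _).trans ((le_max_right _ _).trans t6)
  have hLα0 : 0 < L ^ α := Real.rpow_pos_of_pos hL0 α
  have hLα : L ^ α ≤ L := by
    calc L ^ α ≤ L ^ (1 : ℝ) := Real.rpow_le_rpow_of_exponent_le hL1 (by linarith)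
      _ = L := Real.rpow_one L
  have hH0 : 1 ≤ H := by
    refine le_trans ?_ hH1
    rw [le_div_iff₀ hLα0]
    linarith
  obtain ⟨δ, hδ⟩ : ∃ δ : ℝ, δ = H / T := ⟨_, rfl⟩
  have hδT : δ * T = H := by rw [hδ]; field_simp
  have hδ0 : 0 < δ := by rw [hδ]; positivity
  have hδ1 : δ ≤ 1 := by rw [hδ, div_le_one hTpos]; exact hH2
  have hδL : 1 / L ^ α ≤ δ := by
    rw [hδ, le_div_iff₀ hTpos]
    rw [one_div_mul_eq_div]
    exact hH1
  set θ := η * δ with hθ
  have hθ0 : 0 < θ := by positivity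
  have hθδ : θ < δ / 4 := by rw [hθ]; nlinarith
  have hθ1 : θ ≤ 1 := by linarith
  -- lower bound for θ^2 L
  have hθL : (2 * (A : ℝ) + 5) * 36 ≤ θ ^ 2 * L := by
    have h1 : (2 * (A : ℝ) + 5) * 36 ≤ η ^ 2 * L ^ (1 - 2 * α) := by
      rw [div_le_iff₀ (by positivity)] at t5
      linarith
    refine h1.trans ?_
    have h2 : L ^ (1 - 2 * α) = L / (L ^ α) ^ 2 := by
      rw [Real.rpow_sub hL0, Real.rpow_one, mul_comm 2 α, Real.rpow_mul hL0.le]
      norm_num
    rw [h2, hθ, mul_pow, mul_assoc]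
    apply mul_le_mul_of_nonneg_left _ (by positivity)
    rw [div_eq_mul_one_div, mul_comm]
    apply mul_le_mul_of_nonneg_right _ hL0.le
    have h3 : (1 / L ^ α) ^ 2 ≤ δ ^ 2 := pow_le_pow_left₀ (by positivity) hδL 2
    rwa [div_pow, one_pow] at h3
  set σ : ℝ := (1 + δ - θ) / (1 + δ) with hσ
  have hσ0 : 0 < σ := by
    have : 0 < 1 + δ - θ := by linarith
    positivity
  have hσ1 : σ < 1 := by rw [hσ, div_lt_one (by positivity)]; linarith
  have hv0 : 1 < 1 / σ := by rw [lt_div_iff₀ hσ0]; linarith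
  have hvσ : 1 / σ = 1 + θ / (1 + δ - θ) := by
    have : 1 + δ - θ ≠ 0 := by linarith
    rw [hσ]; field_simp; ring
  have hvθ : θ / 2 ≤ 1 / σ - 1 := by
    rw [hvσ, add_sub_cancel_left]
    apply div_le_div_of_nonneg_left hθ0.le (by linarith) (by linarith)
  have hv2 : 1 / σ ≤ 2 := by
    rw [hvσ]
    have : θ / (1 + δ - θ) ≤ 1 := by rw [div_le_one (by linarith)]; linarith
    linarith
  have hγ := gam_lower hv0 hv2
  have hγ2 : θ ^ 2 / 72 ≤ (1 / σ - 1 - Real.log (1 / σ)) / (1 / σ) := by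
    refine le_trans ?_ hγ
    have : (θ / 2) ^ 2 ≤ (1 / σ - 1) ^ 2 := pow_le_pow_left₀ (by positivity) hvθ 2
    nlinarith
  have hg := g_lower hθ0 hθ1
  set g := 1 / (1 + θ) - 1 - Real.log (1 / (1 + θ)) with hgdef
  obtain ⟨T', hT'⟩ : ∃ T' : ℝ, T' = T + H := ⟨_, rfl⟩
  rw [← hT']
  have hT'2 : T' = (1 + δ) * T := by rw [hT', ← hδT]; ring
  have hTT : T ≤ T' := by rw [hT']; linarith
  have hT'0 : 0 < T' := by linarith
  set a := (1 + θ) * T with ha
  set b := (1 + δ - θ) * T with hb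
  have ha0 : 0 < a := by positivity
  have hab : a ≤ b := by
    rw [ha, hb]
    apply mul_le_mul_of_nonneg_right _ hTpos.le
    linarith
  have hba : b - a = (1 - 2 * η) * H := by rw [ha, hb, ← hδT, hθ]; ring
  have hTa : T ≤ a := by rw [ha]; nlinarith
  have hbT : b ≤ T' := by
    rw [hb, hT'2]
    apply mul_le_mul_of_nonneg_right _ hTpos.le
    linarith
  have hbσ : b = σ * T' := by
    rw [hb, hσ, hT'2]
    field_simp
  set L' := Real.log T' with hL'
  have hL'eq : L' = Real.log (1 + δ) + L := by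
    rw [hL', hT'2, Real.log_mul (by positivity) hTpos.ne']
  have hLL' : L ≤ L' := Real.log_le_log hTpos hTT
  have hlog2 : Real.log (1 + δ) ≤ Real.log 2 := Real.log_le_log (by linarith) (by linarith)
  have hL'6 : L' ≤ 6 / 5 * L := by rw [hL'eq]; linarith
  set k : ℕ := ⌈2 * L' ^ 2⌉₊ with hk
  have hk1 : 2 * L' ^ 2 ≤ k := Nat.le_ceil _
  have hk2 : (k : ℝ) < 2 * L' ^ 2 + 1 := Nat.ceil_lt_add_one (by positivity)
  have hL2' : L ^ 2 ≤ L' ^ 2 := pow_le_pow_left₀ hL0.le hLL' 2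
  have hL1' : 1 ≤ L ^ 2 := one_le_pow₀ hL1
  have hk3 : 1 ≤ k := by
    have : (1 : ℝ) ≤ k := by linarith
    exact_mod_cast this
  have hlow : ∀ x ∈ Set.Ioc a b,
      c * L ^ m ≤ ∫ t in Set.Ioi (0 : ℝ), om k (k / x) t * f t := by
    intro x hx
    have hx0 : 0 < x := ha0.trans hx.1
    have hTx : T ≤ x := hTa.trans hx.1.le
    have hlx : L ≤ Real.log x := Real.log_le_log hTpos hTx
    have hlx2 : Real.log x ≤ L' := Real.log_le_log hx0 (hx.2.trans hbT)
    have hlx0 : 0 ≤ Real.log x := by linarith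
    refine le_trans ?_ (hT0 x (hT0'.trans hTx) k ?_ ?_)
    · apply mul_le_mul_of_nonneg_left _ hc
      exact Real.rpow_le_rpow hL0.le hlx hm
    · have : Real.log x ^ 2 ≤ L' ^ 2 := pow_le_pow_left₀ hlx0 hlx2 2
      have h0 : 0 ≤ L' ^ 2 := sq_nonneg L'
      linarith
    · have h1 : L ^ 2 ≤ Real.log x ^ 2 := pow_le_pow_left₀ hL0.le hlx 2
      have h2 : L' ^ 2 ≤ (6 / 5 * L) ^ 2 := pow_le_pow_left₀ (by linarith) hL'6 2
      have h3 : (6 / 5 * L) ^ 2 = 36 / 25 * L ^ 2 := by ring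
      linarith
  have htail : ∀ t, T' < t → f t * Ph k (k * t / b) ≤ t ^ (-2 : ℝ) := by
    intro t ht
    rw [hbσ]
    refine tail_bound hf0 hC hCA hσ0 hσ1 (hT1.trans hTT) (hCT.trans hTT) (hL1.trans hLL') ?_ hk1 ht
    have h1 : 2 * (θ ^ 2 / 72) * L ≤
        2 * ((1 / σ - 1 - Real.log (1 / σ)) / (1 / σ)) * L' :=
      mul_le_mul (by linarith) hLL' hL0.le (by
        have : 0 ≤ θ ^ 2 / 72 := by positivity
        linarith)
    refine le_trans ?_ h1
    linarith
  have hhead : ∀ t, 0 < t → t ≤ T → f t * (1 - Ph k (k * t / a)) ≤ 1 / T ^ 2 := by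
    intro t ht0 ht
    refine head_bound (g := g) hf0 hC hCA (by linarith : 1 < 1 + θ) hgdef hT1 hCT ?_ ?_ ht0 ht
    · have h1 : 2 * (θ ^ 2 / 16) * L ≤ 2 * g * L :=
        mul_le_mul_of_nonneg_right (by linarith) hL0.le
      refine le_trans ?_ h1
      have : (0 : ℝ) ≤ A := Nat.cast_nonneg A
      linarith
    · linarith
  have hmain := main_T' hf hf0 hk3 ha0 hab hTpos hTT (by positivity) hlow hhead htail
  rw [hba] at hmain
  have hLm : 1 ≤ L ^ m := Real.one_le_rpow hL1 hm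
  have h1T : 1 / T' ≤ 1 / T := one_div_le_one_div_of_le hTpos hTT
  have h3 : 2 * (1 / T) ≤ κ0 * (H * L ^ m) := by
    have h5 : 2 * (1 / T) ≤ κ0 := by
      rw [div_le_iff₀ hκ0'] at hκT
      rw [mul_one_div, div_le_iff₀ hTpos]; linarith
    have h6 : 1 ≤ H * L ^ m := by nlinarith
    have h7 : κ0 * 1 ≤ κ0 * (H * L ^ m) := mul_le_mul_of_nonneg_left h6 hκ0'.le
    linarith
  have h4 : c' * H * L ^ m = c * L ^ m * ((1 - 2 * η) * H) - κ0 * (H * L ^ m) := by
    rw [hκ0]; ring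
  rw [h4]
  linarith




theorem window_all_real (f : ℝ → ℝ) (hf : Continuous f) (hf0 : ∀ t, 0 ≤ f t) (K : ℝ) (hK : 0 ≤ K) (c C : ℝ)
    (hC : 0 ≤ C) (hc : C < c) (α β : ℝ) (hα : 0 ≤ α) (hαβ : α < β) (hβ : β ≤ 1)
    (hw : ∀ᶠ T : ℝ in atTop, ∀ H : ℝ, T / Real.log T ^ β ≤ H → H ≤ T →
      c * H * Real.log T ^ K ≤ ∫ t in T..(T + H), f t) :
    ∀ᶠ T : ℝ in atTop, ∀ U H : ℝ, 0 ≤ U → U + H ≤ T → T / Real.log T ^ α ≤ H →
      C * H * Real.log T ^ K ≤ ∫ t in U..(U + H), f t := by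
  have hc0 : 0 < c := lt_of_le_of_lt hC hc
  -- choice of the parameters
  obtain ⟨η, hη0, hη1, hη⟩ : ∃ η : ℝ, 0 < η ∧ η < 1 / 2 ∧ C < c * (1 - η) ^ (K + 1) := by
    have hcont : Tendsto (fun η : ℝ => c * (1 - η) ^ (K + 1)) (𝓝[>] 0) (𝓝 (c * (1 - 0) ^ (K + 1))) := by
      have : Continuous (fun η : ℝ => c * (1 - η) ^ (K + 1)) :=
        continuous_const.mul ((continuous_const.sub continuous_id).rpow_const
          (fun _ => Or.inr (by linarith)))
      exact (this.tendsto 0).mono_left nhdsWithin_le_nhds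
    rw [sub_zero, Real.one_rpow, mul_one] at hcont
    have h1 := hcont.eventually_const_lt hc
    have h2 : ∀ᶠ η : ℝ in 𝓝[>] 0, η ∈ Set.Ioo (0 : ℝ) (1 / 2) := Ioo_mem_nhdsGT (by norm_num)
    obtain ⟨η, h1, h2⟩ := (h1.and h2).exists
    exact ⟨η, h2.1, h2.2, h1⟩
  obtain ⟨n, hn⟩ := exists_nat_gt (1 / η)
  have hn0 : (0 : ℝ) < n := lt_trans (by positivity) hn
  set δ : ℝ := 1 / ((n : ℝ) + 1) with hδ
  have hδ0 : 0 < δ := by rw [hδ]; positivity
  have hδ1 : δ ≤ η := by
    rw [hδ, div_le_iff₀ (by positivity)]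
    rw [div_lt_iff₀ hη0] at hn
    nlinarith
  have hnδ : (n : ℝ) * δ = 1 - δ := by
    rw [hδ]
    field_simp
    ring
  obtain ⟨T0, hT0⟩ := eventually_atTop.mp hw
  have ev1 : ∀ᶠ T : ℝ in atTop, Real.log T ^ α ≤ δ * T ^ η := by
    have h := (isLittleO_log_rpow_rpow_atTop α hη0).bound hδ0
    filter_upwards [h, eventually_gt_atTop 1] with T h hT
    have hL : 0 < Real.log T := Real.log_pos hT
    have hT' : 0 < T := by linarith
    rwa [Real.norm_of_nonneg (by positivity), Real.norm_of_nonneg (by positivity)] at h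
  have ev2 : ∀ᶠ T : ℝ in atTop, 2 / δ ≤ Real.log T ^ (β - α) :=
    ((tendsto_rpow_atTop (by linarith)).comp Real.tendsto_log_atTop).eventually_ge_atTop _
  have ev3 : ∀ᶠ T : ℝ in atTop, T0 ≤ T ^ (1 - η) :=
    (tendsto_rpow_atTop (by linarith)).eventually_ge_atTop _
  filter_upwards [ev1, ev2, ev3, eventually_gt_atTop 1] with T e1 e2 e3 hT U H hU hUH hH
  have hTp : 0 < T := by linarith
  have hL : 0 < Real.log T := Real.log_pos hT
  have hLα : 0 < Real.log T ^ α := by positivity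
  have hH0 : 0 < H := lt_of_lt_of_le (by positivity) hH
  -- the step is large
  have hstep : T ^ (1 - η) ≤ δ * H := by
    have h1 : T ≤ H * Real.log T ^ α := by rwa [div_le_iff₀ hLα] at hH
    have h2 : T ≤ H * (δ * T ^ η) := h1.trans (mul_le_mul_of_nonneg_left e1 hH0.le)
    have h3 : T ^ (1 - η) * T ^ η = T := by
      rw [← Real.rpow_add hTp]
      norm_num
    have h4 : 0 < T ^ η := by positivity
    have h5 : T ^ (1 - η) * T ^ η ≤ (δ * H) * T ^ η := by
      rw [h3]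
      calc T ≤ H * (δ * T ^ η) := h2
        _ = _ := by ring
    exact le_of_mul_le_mul_right h5 h4
  have hpiece : ∀ j ∈ Ico 1 (n + 1), c * (δ * H) * ((1 - η) * Real.log T) ^ K ≤
      ∫ t in (U + (j : ℝ) * (δ * H))..(U + ((j + 1 : ℕ) : ℝ) * (δ * H)), f t := by
    intro j hj
    rw [mem_Ico] at hj
    have hj1 : (1 : ℝ) ≤ j := by exact_mod_cast hj.1
    have hjn : (j : ℝ) ≤ n := by exact_mod_cast (Nat.lt_succ_iff.mp hj.2)
    have hδH : 0 < δ * H := by positivity
    set Tj : ℝ := U + (j : ℝ) * (δ * H) with hTj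
    have hTj1 : δ * H ≤ Tj := by
      rw [hTj]
      nlinarith
    have hTjT : Tj ≤ T := by
      have : (j : ℝ) * (δ * H) ≤ H := by
        calc (j : ℝ) * (δ * H) ≤ n * (δ * H) := mul_le_mul_of_nonneg_right hjn hδH.le
          _ = (n * δ) * H := by ring
          _ = (1 - δ) * H := by rw [hnδ]
          _ ≤ 1 * H := mul_le_mul_of_nonneg_right (by linarith) hH0.le
          _ = H := one_mul H
      rw [hTj]
      linarith
    have hTjη : T ^ (1 - η) ≤ Tj := hstep.trans hTj1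
    have hTj0 : 0 < Tj := lt_of_lt_of_le (by positivity) hTjη
    have hlog : (1 - η) * Real.log T ≤ Real.log Tj := by
      rw [← Real.log_rpow hTp]
      exact Real.log_le_log (by positivity) hTjη
    have hlog0 : 0 < (1 - η) * Real.log T := mul_pos (by linarith) hL
    have hcond : Tj / Real.log Tj ^ β ≤ δ * H := by
      have a1 : ((1 - η) * Real.log T) ^ β ≤ Real.log Tj ^ β :=
        Real.rpow_le_rpow hlog0.le hlog (by linarith)
      have a2 : (1 / 2) * Real.log T ^ β ≤ ((1 - η) * Real.log T) ^ β := by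
        rw [Real.mul_rpow (by linarith) hL.le]
        refine mul_le_mul_of_nonneg_right ?_ (by positivity)
        calc (1 / 2 : ℝ) = (1 / 2 : ℝ) ^ (1 : ℝ) := (Real.rpow_one _).symm
          _ ≤ (1 / 2 : ℝ) ^ β :=
              Real.rpow_le_rpow_of_exponent_ge (by norm_num) (by norm_num) hβ
          _ ≤ (1 - η) ^ β := Real.rpow_le_rpow (by norm_num) (by linarith) (by linarith)
      have a3 : 0 < (1 / 2) * Real.log T ^ β := by positivity
      have a4 : Tj / Real.log Tj ^ β ≤ T / ((1 / 2) * Real.log T ^ β) := by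
        apply div_le_div₀ hTp.le hTjT a3 (a2.trans a1)
      refine a4.trans ?_
      have a5 : Real.log T ^ β = Real.log T ^ (β - α) * Real.log T ^ α := by
        rw [← Real.rpow_add hL]
        congr 1
        ring
      have a6 : T / ((1 / 2) * Real.log T ^ β) =
          (2 / Real.log T ^ (β - α)) * (T / Real.log T ^ α) := by
        rw [a5]
        field_simp
      rw [a6]
      have a7 : 2 / Real.log T ^ (β - α) ≤ δ := by
        rw [div_le_iff₀ (by positivity)]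
        rwa [div_le_iff₀ hδ0, mul_comm] at e2
      exact mul_le_mul a7 hH (by positivity) hδ0.le
    have h := hT0 Tj (e3.trans hTjη) (δ * H) hcond hTj1
    have e : U + ((j + 1 : ℕ) : ℝ) * (δ * H) = Tj + δ * H := by
      rw [hTj]
      push_cast
      ring
    rw [e]
    refine le_trans ?_ h
    refine mul_le_mul_of_nonneg_left ?_ (by positivity)
    exact Real.rpow_le_rpow hlog0.le hlog hK
  have hsum := sum_le_sum hpiece
  rw [intervalIntegral.sum_integral_adjacent_intervals_Ico (a := fun j : ℕ => U + (j : ℝ) * (δ * H))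
    (by omega) (fun j _ => hf.intervalIntegrable _ _)] at hsum
  rw [sum_const, Nat.card_Ico, nsmul_eq_mul] at hsum
  have hend : U + ((n + 1 : ℕ) : ℝ) * (δ * H) = U + H := by
    have : ((n + 1 : ℕ) : ℝ) * δ = 1 := by
      rw [hδ]
      push_cast
      field_simp
    rw [← mul_assoc, this, one_mul]
  rw [hend] at hsum
  have hsub : ∫ t in (U + ((1 : ℕ) : ℝ) * (δ * H))..(U + H), f t ≤ ∫ t in U..(U + H), f t := by
    have h1 := intervalIntegral.integral_add_adjacent_intervals (a := U)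
      (b := U + ((1 : ℕ) : ℝ) * (δ * H)) (c := U + H) (μ := volume)
      (hf.intervalIntegrable _ _) (hf.intervalIntegrable _ _)
    have h2 : 0 ≤ ∫ t in U..(U + ((1 : ℕ) : ℝ) * (δ * H)), f t := by
      apply intervalIntegral.integral_nonneg
      · have : 0 ≤ ((1 : ℕ) : ℝ) * (δ * H) := by positivity
        linarith
      · intro t _
        exact hf0 t
    linarith
  refine le_trans ?_ (hsum.trans hsub)
  have hcast : ((n + 1 - 1 : ℕ) : ℝ) = n := by simp
  rw [hcast]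
  calc C * H * Real.log T ^ K ≤ (c * (1 - η) ^ (K + 1)) * H * Real.log T ^ K := by
        refine mul_le_mul_of_nonneg_right (mul_le_mul_of_nonneg_right hη.le hH0.le) (by positivity)
    _ = (1 - η) * (c * H * ((1 - η) * Real.log T) ^ K) := by
        rw [Real.mul_rpow (by linarith : 0 ≤ 1 - η) hL.le,
          Real.rpow_add (by linarith : 0 < 1 - η), Real.rpow_one]
        ring
    _ ≤ (1 - δ) * (c * H * ((1 - η) * Real.log T) ^ K) := by
        have h1 : 0 ≤ c * H * ((1 - η) * Real.log T) ^ K := by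
          have : 0 ≤ (1 - η) * Real.log T := mul_nonneg (by linarith) hL.le
          positivity
        exact mul_le_mul_of_nonneg_right (by linarith) h1
    _ = (n * δ) * (c * H * ((1 - η) * Real.log T) ^ K) := by rw [hnδ]
    _ = _ := by ring



end

end Pool.Agent.R313
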